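import Mathlib
import Pool.Agent.Helper91.TY.GlueB

/-!
MP_8ee768_co, project TH-Y', stages E / B1a: records and entries, generic in the rows.

`RowsG typ nl row T K cap P`: the rows of the types `t` with `T t`; completeness only for the types
whose number of triples satisfies `K`. `recsAll Q n C`: all `n` records of `C` satisfy `Q`.
-/

set_option autoImplicit false
set_option exponentiation.threshold 2000000

namespace Pool.Agent.Helper9.TY

open Finset
open Pool.Agent.Helper89.CV (OddCover ofMask)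
open Pool.Agent.Helper97.CV
open Pool.Agent.Helper63.SIMD
open Pool.Agent.Helper79.CV
open Pool.Agent.Helper33.CV
open Pool.Agent.Helper82.TY (below Lay)
open Pool.Agent.Helper39.TY (InL)
open Pool.Agent.Helper52.TY (expandC)
open Pool.Agent.Helper38.TY
open Pool.Agent.Helper91.TY

/-! ### rows -/

/-- what is known about the rows of the types in `T`; `K` = the numbers of triples which count -/
structure RowsG (typ nl : ℕ → ℕ) (row : ℕ → List ℕ) (T K : ℕ → Prop) (cap : ℕ)
    (P : Fam → Prop) : Prop where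
  typ_lt : ∀ t, T t → typ t < 2 ^ 165
  row_lt : ∀ t, T t → ∀ X ∈ row t, expandC X < 2 ^ 131072
  rows : ∀ t, T t → ∀ D : Fam, OddFam 3 (below 12) D → link D 11 = fam 11 3 (typ t) →
    K (fam 11 3 (typ t)).card → 2 * D.card ≤ 114 + cap → P D → RowIn (nl t) (row t) (Lay D)

/-- lanes of the first list of chunks -/
theorem rowIn_append_left {n1 n2 : ℕ} {l1 l2 : List ℕ} {F : Fam} (h : RowIn n1 l1 F) :
    RowIn (64 * l1.length + n2) (l1 ++ l2) F := by
  obtain ⟨k, X, i, h1, h2, h3, h4⟩ := h
  have h5 : k < l1.length := (List.getElem?_eq_some_iff.1 h1).1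
  exact ⟨k, X, i, by rw [List.getElem?_append_left h5, h1], h2, by omega, h4⟩

/-- lanes of the second list of chunks -/
theorem rowIn_append_right {n2 : ℕ} {l1 l2 : List ℕ} {F : Fam} (h : RowIn n2 l2 F) :
    RowIn (64 * l1.length + n2) (l1 ++ l2) F := by
  obtain ⟨k, X, i, h1, h2, h3, h4⟩ := h
  refine ⟨l1.length + k, X, i, ?_, h2, by omega, h4⟩
  rw [List.getElem?_append_right (by omega), Nat.add_sub_cancel_left, h1]

/-- one record -/
theorem rec_hasG {typ nl : ℕ → ℕ} {row : ℕ → List ℕ} {T K : ℕ → Prop} {cap : ℕ}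
    {P : Fam → Prop} (hP : Inv P) (hrow : RowsG typ nl row T K cap P) {r p t len w : ℕ}
    (hT : T t) (hb : baseChk (cub 12 (fam 12 4 r)) p (typ t) len w = true) {B : Fam}
    {y : Fin 13} (hy : y.val = p) (hy12 : y ≠ 12) (hB : Lgt cap P r B y)
    (hK : K (19 + 2 * mm B 12 y)) :
    ∃ e ∈ grpF p len w [] ((nl t + 511) / 512) (nl t) (row t), Good e B y := by
  rw [← hy] at hb
  obtain ⟨hw, hρ⟩ := baseChk_sound hy12 (hrow.typ_lt t hT) hb
  have hcard : (fam 11 3 (typ t)).card = 19 + 2 * mm B 12 y := by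
    have h1 := congrArg Finset.card hρ
    rw [card_mapF] at h1
    rw [h1]
    have h2 : link (mapF (Equiv.swap y 11) (fam 12 4 r)) 11 =
        mapF (Equiv.swap y 11) (link (fam 12 4 r) y) := by
      have h3 := link_mapF (Equiv.swap y 11) (fam 12 4 r) y
      rw [Equiv.swap_apply_left] at h3
      exact h3
    rw [h2, card_mapF, ← hB.root]
    exact card_link_link hB.odd hy12.symm
  obtain ⟨D, h3, h4, h5, h6, h7⟩ := moved_row hP hB.odd hB.prop hB.le (σ := Equiv.swap y 11)
    (Equiv.swap_apply_of_ne_of_ne hy12.symm (by decide)) (Equiv.swap_apply_left _ _) hw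
    (by rw [hB.root]; exact hρ)
  have h8 := hrow.rows _ hT D h3 h4 (by rw [hcard]; exact hK) h5 h6
  obtain ⟨e, he, g1, g2, g3, g4⟩ := grp_has (p := p) hw (L := [])
    (g := (nl t + 511) / 512) (hrow.row_lt _ hT) h8 (by omega)
  rw [← h7] at g3 g4
  exact ⟨e, he, g1.trans hy.symm, g2, g3, g4⟩

/-! ### records -/

/-- all records satisfy `Q` (position, type, length, word) -/
def recsAll (Q : ℕ → ℕ → ℕ → ℕ → Prop) : ℕ → ℕ → Prop
  | 0, _ => True
  | n + 1, C => Q (rP C) (rT C) (rLen C) (rW C) ∧ recsAll Q n (C >>> 112)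

theorem grpF_append (p len w : ℕ) (L : List Ent) (g N : ℕ) (l : List ℕ) :
    grpF p len w L g N l = grpF p len w [] g N l ++ L := by
  induction g generalizing N l with
  | zero => rfl
  | succ g ih =>
    show entF p len w N l :: grpF p len w L g (N - 512) (dropN 8 l) = _
    rw [ih]
    rfl

theorem p_of_mem_grpF {p len w : ℕ} : ∀ {g N : ℕ} {l : List ℕ} {e : Ent},
    e ∈ grpF p len w [] g N l → e.p = p
  | 0, _, _, _, h => absurd h List.not_mem_nil
  | g + 1, N, l, e, h => by
    rcases List.mem_cons.1 (show e ∈ entF p len w N l :: grpF p len w [] g (N - 512) (dropN 8 l)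
      from h) with h1 | h1
    · rw [h1]
      rfl
    · exact p_of_mem_grpF h1

theorem entsF_succ (row : ℕ → List ℕ) (nl : ℕ → ℕ) (n C : ℕ) :
    entsF row nl (n + 1) C = grpF (rP C) (rLen C) (rW C) []
      ((nl (rT C) + 511) / 512) (nl (rT C)) (row (rT C)) ++ entsF row nl n (C >>> 112) := by
  show recF row nl C (entsF row nl n (C >>> 112)) = _
  unfold recF
  rw [grpF_append]

/-- the position of an entry is in the mask -/
theorem mem_mask {row : ℕ → List ℕ} {nl : ℕ → ℕ} {e : Ent} : ∀ {n C : ℕ},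
    e ∈ entsF row nl n C → (maskF n C).testBit e.p = true
  | 0, _, h => absurd h List.not_mem_nil
  | n + 1, C, h => by
    rw [entsF_succ] at h
    rcases List.mem_append.1 h with h1 | h1
    · rw [p_of_mem_grpF h1]
      exact testBit_maskF_succ.2 (Or.inl rfl)
    · exact testBit_maskF_succ.2 (Or.inr (mem_mask h1))

/-- every position of the mask has a record -/
theorem rec_of_mask {row : ℕ → List ℕ} {nl : ℕ → ℕ} {Q : ℕ → ℕ → ℕ → ℕ → Prop} {p : ℕ} :
    ∀ {n C : ℕ}, recsAll Q n C → (maskF n C).testBit p = true →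
    ∃ t len w, Q p t len w ∧ ∀ e ∈ grpF p len w [] ((nl t + 511) / 512) (nl t) (row t),
      e ∈ entsF row nl n C
  | 0, _, _, hp => by
    have e : ∀ C, maskF 0 C = 0 := fun _ => rfl
    rw [e, Nat.zero_testBit] at hp
    exact absurd hp Bool.false_ne_true
  | n + 1, C, h, hp => by
    rcases testBit_maskF_succ.1 hp with h1 | h1
    · refine ⟨rT C, rLen C, rW C, by rw [h1]; exact h.1, fun e he => ?_⟩
      rw [h1] at he
      rw [entsF_succ]
      exact List.mem_append_left _ he
    · obtain ⟨t, len, w, h2, h3⟩ := rec_of_mask (row := row) (nl := nl) h.2 h1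
      refine ⟨t, len, w, h2, fun e he => ?_⟩
      rw [entsF_succ]
      exact List.mem_append_right _ (h3 e he)

/-- **the entries contain the lane of a position of the mask** -/
theorem ents_hasG {typ nl : ℕ → ℕ} {row : ℕ → List ℕ} {T K : ℕ → Prop} {cap : ℕ}
    {P : Fam → Prop} (hP : Inv P) (hrow : RowsG typ nl row T K cap P) {r n C : ℕ}
    (hrec : recsAll (fun p t len w => T t ∧
      baseChk (cub 12 (fam 12 4 r)) p (typ t) len w = true) n C) {B : Fam} {y : Fin 13}
    (hy12 : y ≠ 12) (hy : (maskF n C).testBit y.val = true) (hB : Lgt cap P r B y)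
    (hK : K (19 + 2 * mm B 12 y)) : ∃ e ∈ entsF row nl n C, Good e B y := by
  obtain ⟨t, len, w, ⟨h1, h2⟩, h3⟩ := rec_of_mask (row := row) (nl := nl) hrec hy
  obtain ⟨e, he, h4⟩ := rec_hasG hP hrow h1 h2 rfl hy12 hB hK
  exact ⟨e, h3 e he, h4⟩

/-- the records of helper91's check -/
theorem recsAll_of_recsChk {typ : ℕ → ℕ} {NT R : ℕ} : ∀ {n a C : ℕ},
    recsChk typ NT R n a C = true →
    recsAll (fun p t len w => (2 ≤ t ∧ t < NT) ∧ baseChk R p (typ t) len w = true) n C
  | 0, _, _, _ => trivial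
  | n + 1, a, C, h => by
    obtain ⟨-, -, h3, h4, h5, h6⟩ := recsChk_succ h
    exact ⟨⟨⟨h3, h4⟩, h5⟩, recsAll_of_recsChk h6⟩

/-! ### the records of the zero positions -/

/-- check of `n` records of zero positions: types `0` and `1`, words -/
noncomputable def zChk (typ : ℕ → ℕ) (R : ℕ) (n : ℕ) : ℕ → Bool :=
  @Nat.rec (fun _ => ℕ → Bool) (fun _ => true)
    (fun _ ih C => frS C (rP C) fun p => frS C (rT C) fun t => frS C (typ t) fun T =>
      frS C (rLen C) fun len => frS C (rW C) fun w =>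
      ite0 (Nat.ble t 1) false (ite0 (baseChk R p T len w) false
        (frS C (Nat.shiftRight C 112) fun C' => ih C'))) n

theorem zChk_succ {typ : ℕ → ℕ} {R n C : ℕ} (h : zChk typ R (n + 1) C = true) :
    rT C < 2 ∧ baseChk R (rP C) (typ (rT C)) (rLen C) (rW C) = true ∧
      zChk typ R n (C >>> 112) = true := by
  have h0 : (frS C (rP C) fun p => frS C (rT C) fun t => frS C (typ t) fun T =>
      frS C (rLen C) fun len => frS C (rW C) fun w =>
      ite0 (Nat.ble t 1) false (ite0 (baseChk R p T len w) false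
        (frS C (Nat.shiftRight C 112) fun C' => zChk typ R n C'))) = true := h
  simp only [frS_eq] at h0
  obtain ⟨h1, h0⟩ := ite0_and h0
  obtain ⟨h2, h0⟩ := ite0_and h0
  have h3 := Nat.le_of_ble_eq_true h1
  exact ⟨by omega, h2, h0⟩

theorem recsAll_of_zChk {typ : ℕ → ℕ} {R : ℕ} : ∀ {n C : ℕ}, zChk typ R n C = true →
    recsAll (fun p t len w => t < 2 ∧ baseChk R p (typ t) len w = true) n C
  | 0, _, _ => trivial
  | n + 1, C, h => by
    obtain ⟨h1, h2, h3⟩ := zChk_succ h
    exact ⟨⟨h1, h2⟩, recsAll_of_zChk h3⟩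

end Pool.Agent.Helper9.TY
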