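import Mathlib
import Pool.Agent.Helper9.TY.RecE
import Pool.Agent.Helper41.TY.LetE
import Pool.Agent.Helper49.TY.PairE
import Pool.Agent.Helper49.TY.FrameE
import Pool.Agent.Helper49.TY.Suf
import Pool.Agent.Helper52.TY.CentreA

/-!
MP_8ee768_co, project TH-Y', stages E / B1a: soundness of helper41's centre function `cenEK`.

The callback builder `cbK` is a parameter with the law `CbLawG` (root cube = `cub 12 D1` for any family `D1`);
the rows enter by `Rows21` and `RowsZ`, the records by `recsChk` and `zChk`. `acc_cenE`, `acc_cenB`: acceptance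
of the centre proves `CenE reps j r`, `CenB1a r`. Parts of a centre: `PartP`, `covP`, `partP_of_cov`.
-/

set_option autoImplicit false
set_option exponentiation.threshold 2000000

namespace Pool.Agent.Helper9.TY

open Finset
open Pool.Agent.Helper89.CV (OddCover ofMask)
open Pool.Agent.Helper97.CV
open Pool.Agent.Helper63.SIMD
open Pool.Agent.Helper79.CV
open Pool.Agent.Helper33.CV
open Pool.Agent.Helper82.TY (below Best Lay)
open Pool.Agent.Helper39.TY (InL)
open Pool.Agent.Helper52.TY (Fam' LYL LZL LaneDeadL agree_lay)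
open Pool.Agent.Helper63.TY (Cb Acc Agree star star_acc acc_loopL)
open Pool.Agent.Helper38.TY
open Pool.Agent.Helper91.TY hiding Acc
open Pool.Agent.Helper49.TY
open Pool.Agent.Helper41.TY (prodE pairE cenEK cenEF cenEK_eq acc_prodE lyE_letters lxE_letters
  rootE_letters)

/-! ### one pair -/

/-- the callback builder is sound in the frame with centre link `D`, context `H`, mask `h` -/
def CbLawG (cbK : ℕ → ℕ → ((ℕ → ℕ → Cb) → Bool) → Bool) (D : Fam') (H : Fam' → Prop)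
    (h : ℕ) : Prop :=
  ∀ R, R % 2 ^ 4096 = cub 12 D → ∀ k, cbK R h k = true → ∃ cb, k cb = true ∧
    ∀ u v, Acc (Agree u v → LaneDeadL H u v) (cb u v)

theorem acc_pairE {cbK : ℕ → ℕ → ((ℕ → ℕ → Cb) → Bool) → Bool} {D0 : Fam'} {m : ℕ} {a b : Ent}
    {y x : Fin 13} (ha : a.p = y.val) (hb : b.p = x.val) (hyx : y ≠ x) (hy : y < 12)
    (hx : x < 12) {HC : Fam' → Prop} {HF : Fam' → Prop}
    (hmove : ∀ B, HC B → HF (mapF (piE y x) B))
    (hcb : CbLawG cbK (mapF (piE y x) D0) HF (hmE m y.val x.val)) :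
    Acc (∀ B, HC B → Good a B y → Good b B x → False)
      (pairE cbK (2 ^ 131072 - 1) (cub 12 D0) m a b) := by
  intro s c h
  unfold pairE at h
  simp only [frS_eq, runD_eq] at h
  rw [ha, hb] at h
  obtain ⟨cb, h1, h2⟩ := hcb _ (rootE_letters hyx hy hx _) _ h
  obtain ⟨h3, h4⟩ := eng_acc h2 _ _ s c h1
  refine ⟨?_, h4⟩
  intro B hB hya hxb
  obtain ⟨Y, hY, i, hi, hYi⟩ := inL_cutL (lyE_letters hyx hy hx hya.le hya.inY)
  obtain ⟨Z, hZ, j, hj, hZj⟩ := inL_cutL (lxE_letters hyx hy hx hxb.le hxb.inX)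
  refine h3 Y hY Z hZ i hi j hj ?_ _ (hmove B hB) hYi.symm hZj.symm
  rw [hYi, hZj]
  exact agree_lay _

/-! ### the centre, generic -/

/-- the positions of the records `C` are neighbours, those of `Z` are not -/
def MaskOK (v C Z : ℕ) : Prop :=
  (∀ p, (maskF (Nat.land C 15) (C >>> 4)).testBit p = true →
    (4095 ^^^ (v >>> 495)).testBit p = true) ∧
  ∀ p, (maskF (Nat.land Z 15) (Z >>> 4)).testBit p = true → (v >>> 495).testBit p = true

/-- the product of the entries, for any context `HC` of the pairs `(y, x)` -/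
theorem acc_bodyG {cbK : ℕ → ℕ → ((ℕ → ℕ → Cb) → Bool) → Bool} {v C Z : ℕ}
    {rowy rowx : ℕ → List ℕ} {nly nlx : ℕ → ℕ} {D1 : Fam'}
    (hv : v >>> 495 < 4096) (hm : MaskOK v C Z)
    {HC HF : Fin 13 → Fin 13 → Fam' → Prop}
    (hmove : ∀ y x : Fin 13, y ≠ x → y < 12 → x < 12 →
      (4095 ^^^ (v >>> 495)).testBit y.val = true → (4095 ^^^ (v >>> 495)).testBit x.val = false →
      ∀ B, HC y x B → HF y x (mapF (piE y x) B))
    (hcb : ∀ y x : Fin 13, y ≠ x → y < 12 → x < 12 →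
      CbLawG cbK (mapF (piE y x) D1) (HF y x)
        (hmE (4095 ^^^ (v >>> 495)) y.val x.val)) :
    Acc (∀ a ∈ entsF rowy nly (Nat.land C 15) (C >>> 4),
        ∀ b ∈ entsF rowx nlx (Nat.land Z 15) (Z >>> 4), ∀ (y x : Fin 13) (B : Fam'),
          HC y x B → Good a B y → Good b B x → False)
      (prodE (pairE cbK (2 ^ 131072 - 1) (cub 12 D1) (4095 ^^^ (v >>> 495)))
        (entsF rowy nly (Nat.land C 15) (C >>> 4))
        (entsF rowx nlx (Nat.land Z 15) (Z >>> 4))) := by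
  have e4095 : (4095 : ℕ) = 2 ^ 12 - 1 := by norm_num
  have hbit : ∀ p : ℕ, p < 12 → ((4095 ^^^ (v >>> 495)).testBit p = true ↔
      (v >>> 495).testBit p = false) := by
    intro p hp
    rw [Nat.testBit_xor, e4095, Nat.testBit_two_pow_sub_one, decide_eq_true hp, Bool.true_xor]
    cases (v >>> 495).testBit p <;> simp
  have hlt : ∀ p : ℕ, (v >>> 495).testBit p = true → p < 12 := by
    intro p hp
    by_contra hc
    rw [Nat.testBit_eq_false_of_lt (lt_of_lt_of_le hv (by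
      rw [show (4096 : ℕ) = 2 ^ 12 by norm_num]
      exact Nat.pow_le_pow_right (by norm_num) (not_lt.1 hc)))] at hp
    exact Bool.false_ne_true hp
  have hlt' : ∀ p : ℕ, (4095 ^^^ (v >>> 495)).testBit p = true → p < 12 := by
    intro p hp
    rw [Nat.testBit_xor, e4095, Nat.testBit_two_pow_sub_one] at hp
    by_contra hc
    rw [decide_eq_false hc, Bool.false_xor] at hp
    exact hc (hlt p hp)
  refine acc_prodE fun a ha b hb => ?_
  intro s c h5
  have ha1 := hm.1 _ (mem_mask ha)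
  have hb1 := hm.2 _ (mem_mask hb)
  have ha2 := hlt' _ ha1
  have hb2 := hlt _ hb1
  obtain ⟨y0, hy0⟩ : ∃ y0 : Fin 13, a.p = y0.val := ⟨⟨a.p, by omega⟩, rfl⟩
  obtain ⟨x0, hx0⟩ : ∃ x0 : Fin 13, b.p = x0.val := ⟨⟨b.p, by omega⟩, rfl⟩
  rw [hy0] at ha1 ha2
  rw [hx0] at hb1 hb2
  have hne : y0 ≠ x0 := by
    intro h6
    have h8 := (hbit _ ha2).1 ha1
    rw [h6, hb1] at h8
    exact Bool.noConfusion h8
  have hy12 : y0 < 12 := ha2
  have hx12 : x0 < 12 := hb2
  have hxf : (4095 ^^^ (v >>> 495)).testBit x0.val = false := by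
    rw [← Bool.not_eq_true]
    intro h6
    have h7 := (hbit _ hb2).1 h6
    rw [hb1] at h7
    exact Bool.noConfusion h7
  obtain ⟨h8, h9⟩ := acc_pairE (a := a) (b := b) hy0 hx0 hne hy12 hx12
    (HC := HC y0 x0) (HF := HF y0 x0) (hmove _ _ hne hy12 hx12 ha1 hxf)
    (hcb _ _ hne hy12 hx12) s c h5
  refine ⟨fun y x B hB hya hxb => ?_, h9⟩
  have ey : y = y0 := Fin.ext (hya.pos.symm.trans hy0)
  have ex : x = x0 := Fin.ext (hxb.pos.symm.trans hx0)
  subst ey
  subst ex
  exact h8 B hB hya hxb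

/-- the whole centre: the masks are checked inside -/
theorem acc_cenEK {cbK : ℕ → ℕ → ((ℕ → ℕ → Cb) → Bool) → Bool} {v R C Z : ℕ}
    {rowy rowx : ℕ → List ℕ} {nly nlx : ℕ → ℕ} {P : Prop}
    (h : MaskOK v C Z → Acc P (prodE (pairE cbK (2 ^ 131072 - 1) R (4095 ^^^ (v >>> 495)))
        (entsF rowy nly (Nat.land C 15) (C >>> 4))
        (entsF rowx nlx (Nat.land Z 15) (Z >>> 4)))) :
    Acc ((maskF (Nat.land C 15) (C >>> 4) = 4095 ^^^ (v >>> 495) ∧
      maskF (Nat.land Z 15) (Z >>> 4) = v >>> 495) ∧ P)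
      (cenEK rowy nly rowx nlx cbK v R C Z) := by
  intro s c h0
  rw [cenEK_eq] at h0
  unfold cenEF at h0
  obtain ⟨h1, h0⟩ := ite0_and h0
  obtain ⟨h2, h0⟩ := ite0_and h0
  have hm1 : maskF (Nat.land C 15) (C >>> 4) = 4095 ^^^ (v >>> 495) := Nat.eq_of_beq_eq_true h1
  have hm2 : maskF (Nat.land Z 15) (Z >>> 4) = v >>> 495 := Nat.eq_of_beq_eq_true h2
  rw [hm1] at h0
  obtain ⟨h3, h4⟩ := h ⟨fun p hp => by rw [← hm1]; exact hp, fun p hp => by rw [← hm2]; exact hp⟩
    s c h0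
  exact ⟨⟨⟨hm1, hm2⟩, h3⟩, h4⟩

/-! ### parts -/

/-- the pairs `(y, x)` with `y` in the mask `mC` and `x` in the mask `mZ` are impossible -/
def PartP (PD : Fin 13 → Fin 13 → Prop) (mC mZ : ℕ) : Prop :=
  ∀ y x : Fin 13, mC.testBit y.val = true → mZ.testBit x.val = true → PD y x

/-- all parts of a list -/
def AllP (PD : Fin 13 → Fin 13 → Prop) : List (ℕ × ℕ) → Prop
  | [] => True
  | p :: l => PartP PD p.1 p.2 ∧ AllP PD l

/-- bit `12 y + x` is set iff `y` is in `a` and `x` is in `b`, for `y < n` -/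
def prN (a b n : ℕ) : ℕ :=
  @Nat.rec (fun _ => ℕ) 0 (fun i ih => Nat.lor ih (ite0 (Nat.beq (Nat.land (Nat.shiftRight a i) 1) 0)
    (Nat.shiftLeft (Nat.land b 4095) (Nat.mul 12 i)) 0)) n

theorem testBit_prN {a b y x : ℕ} (hx : x < 12) : ∀ n : ℕ,
    (prN a b n).testBit (12 * y + x) = (decide (y < n) && (a.testBit y && b.testBit x)) := by
  intro n
  induction n with
  | zero =>
    show (0 : ℕ).testBit _ = _
    rw [Nat.zero_testBit, decide_eq_false (Nat.not_lt_zero y), Bool.false_and]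
  | succ n ih =>
    have e : prN a b (n + 1) = prN a b n ||| (ite0 (Nat.beq ((a >>> n) &&& 1) 0)
      ((b &&& 4095) <<< (12 * n)) 0) := rfl
    have e4095 : (4095 : ℕ) = 2 ^ 12 - 1 := by norm_num
    have h1 : Nat.beq ((a >>> n) &&& 1) 0 = !a.testBit n := by
      rw [Nat.and_one_is_mod, Nat.shiftRight_eq_div_pow, Nat.testBit_eq_decide_div_mod_eq]
      rcases Nat.mod_two_eq_zero_or_one (a / 2 ^ n) with h2 | h2 <;> rw [h2] <;> rfl
    rw [e, Nat.testBit_or, ih, h1]
    cases h3 : a.testBit n with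
    | false =>
      rw [Bool.not_false, ite0_true, Nat.zero_testBit, Bool.or_false]
      by_cases h4 : y = n
      · rw [h4, h3]
        simp
      · have h5 : (y < n + 1) ↔ y < n := by omega
        rw [show decide (y < n + 1) = decide (y < n) from decide_eq_decide.2 h5]
    | true =>
      rw [Bool.not_true, ite0_false, Nat.testBit_shiftLeft, Nat.testBit_and, e4095,
        Nat.testBit_two_pow_sub_one]
      rcases lt_trichotomy y n with h4 | h4 | h4
      · rw [decide_eq_true h4, decide_eq_true (show y < n + 1 by omega),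
          decide_eq_false (show ¬ 12 * y + x ≥ 12 * n by omega)]
        simp
      · rw [h4, decide_eq_false (lt_irrefl n), decide_eq_true (Nat.lt_succ_self n), h3,
          decide_eq_true (show 12 * n + x ≥ 12 * n by omega), Nat.add_sub_cancel_left,
          decide_eq_true hx]
        simp
      · rw [decide_eq_false (show ¬ y < n by omega), decide_eq_false (show ¬ y < n + 1 by omega),
          decide_eq_false (show ¬ 12 * y + x - 12 * n < 12 by omega)]
        simp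

/-- the products of all parts -/
def prL (ps : List (ℕ × ℕ)) : ℕ :=
  @List.rec (ℕ × ℕ) (fun _ => ℕ) 0 (fun p _ ih => Nat.lor ih (prN p.1 p.2 12)) ps

/-- the parts cover all pairs of `m` and `z` -/
def covP (m z : ℕ) (ps : List (ℕ × ℕ)) : Bool :=
  Nat.beq (Nat.lor (prL ps) (prN m z 12)) (prL ps)

theorem part_of_bit {PD : Fin 13 → Fin 13 → Prop} {ps : List (ℕ × ℕ)} (h : AllP PD ps)
    {y x : Fin 13} (hx : x.val < 12) (hb : (prL ps).testBit (12 * y.val + x.val) = true) :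
    PD y x := by
  induction ps with
  | nil =>
    have e : prL [] = 0 := rfl
    rw [e, Nat.zero_testBit] at hb
    exact absurd hb Bool.false_ne_true
  | cons p l ih =>
    have e : prL (p :: l) = prL l ||| prN p.1 p.2 12 := rfl
    rw [e, Nat.testBit_or, Bool.or_eq_true] at hb
    rcases hb with hb | hb
    · exact ih h.2 hb
    · rw [testBit_prN hx, Bool.and_eq_true, Bool.and_eq_true] at hb
      exact h.1 y x hb.2.1 hb.2.2

/-- **the parts cover** -/
theorem partP_of_cov {PD : Fin 13 → Fin 13 → Prop} {m z : ℕ} (hm : m < 4096) (hz : z < 4096)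
    {ps : List (ℕ × ℕ)} (hc : covP m z ps = true) (h : AllP PD ps) : PartP PD m z := by
  have hlt : ∀ k p : ℕ, k < 4096 → k.testBit p = true → p < 12 := by
    intro k p hk hp
    by_contra hc
    rw [Nat.testBit_eq_false_of_lt (lt_of_lt_of_le hk (by
      rw [show (4096 : ℕ) = 2 ^ 12 by norm_num]
      exact Nat.pow_le_pow_right (by norm_num) (not_lt.1 hc)))] at hp
    exact Bool.false_ne_true hp
  intro y x hy hx
  have hy12 := hlt _ _ hm hy
  have hx12 := hlt _ _ hz hx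
  refine part_of_bit h hx12 ?_
  have h1 : prL ps ||| prN m z 12 = prL ps := Nat.eq_of_beq_eq_true hc
  rw [← h1, Nat.testBit_or, testBit_prN hx12, hy, hx, decide_eq_true hy12]
  simp

/-! ### stage E -/

theorem piE_symm_lt {y x : Fin 13} (hyx : y ≠ x) (hy : y < 12) (hx : x < 12) {t : Fin 13}
    (ht : t.val < 10) : (piE y x).symm t < 12 := by
  have h : (piE y x).symm t ≠ 12 := by
    intro h1
    rw [Equiv.symm_apply_eq, piE_12 y x hyx hy hx] at h1
    rw [h1] at ht
    exact absurd ht (by decide)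
  have h2 : ((piE y x).symm t).val ≠ 12 := fun h3 => h (Fin.ext h3)
  have h3 := ((piE y x).symm t).isLt
  show ((piE y x).symm t).val < 12
  omega

/-- the bits of the mask in the pair frame -/
theorem mask_nbr {v : ℕ} {B : Fam'}
    (hfm : ∀ t : Fin 13, t < 12 → ((4095 ^^^ (v >>> 495)).testBit t.val = true ↔ 1 ≤ mm B 12 t))
    {y x : Fin 13} (hyx : y ≠ x) (hy : y < 12) (hx : x < 12)
    (hmy : (4095 ^^^ (v >>> 495)).testBit y.val = true)
    (hmx : (4095 ^^^ (v >>> 495)).testBit x.val = false) (t : Fin 13) (ht : t.val < 10)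
    (hb : (hmE (4095 ^^^ (v >>> 495)) y.val x.val).testBit t.val = true) :
    1 ≤ mm B 12 ((piE y x).symm t) :=
  (hfm _ (piE_symm_lt hyx hy hx ht)).1 (hmE_law hyx hy hx hmy hmx t ht hb)

/-- the types of the zero positions -/
def TZ (t : ℕ) : Prop := t < 2

theorem ne_twelve_of_lt {y : Fin 13} (h : y < 12) : y ≠ 12 := ne_of_lt h

/-- the pair `(y, x)` of the centre `r` is impossible, stage E -/
def PDE (reps : List ℕ) (j r : ℕ) (y x : Fin 13) : Prop :=
  ∀ B, QE reps j B 12 y x → link B 12 = fam 12 4 r → False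

/-- neighbours and zero set of a centre -/
def MaskLaw (v r : ℕ) : Prop :=
  ∀ B : Fam', OddCover B → link B 12 = fam 12 4 r → ∀ t : Fin 13, t < 12 →
      ((4095 ^^^ (v >>> 495)).testBit t.val = true ↔ 1 ≤ mm B 12 t)

theorem lt_twelve {y : Fin 13} (h : y ≠ 12) : y < 12 := Fin.lt_def.2 (by
  have h4 : y.val ≠ 12 := fun h5 => h (Fin.ext h5)
  have h5 := y.isLt
  show y.val < 12
  omega)

theorem zero_bit {v r : ℕ} (hfm : MaskLaw v r) {B : Fam'} (hB : OddCover B)
    (hr : link B 12 = fam 12 4 r) {x : Fin 13} (hx : x < 12) (h0 : mm B 12 x = 0) :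
    (v >>> 495).testBit x.val = true := by
  have h4 : ¬ (4095 ^^^ (v >>> 495)).testBit x.val = true := by
    rw [hfm B hB hr x hx, h0]
    omega
  rw [Nat.testBit_xor, show (4095 : ℕ) = 2 ^ 12 - 1 by norm_num,
    Nat.testBit_two_pow_sub_one, decide_eq_true (show x.val < 12 from hx)] at h4
  revert h4
  cases (v >>> 495).testBit x.val <;> simp

/-- the centre from all its pairs -/
theorem cenE_of_part {reps : List ℕ} {j v r : ℕ} (hfm : MaskLaw v r)
    (h : PartP (PDE reps j r) (4095 ^^^ (v >>> 495)) (v >>> 495)) : CenE reps j r := by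
  intro B y x hQ hr
  have hB := hQ.best.odd
  have hy := lt_twelve hQ.cy.symm
  have hx := lt_twelve hQ.cx.symm
  exact h y x ((hfm B hB hr y hy).2 (le_of_eq hQ.edge.symm)) (zero_bit hfm hB hr hx hQ.mm_cx) B
    hQ hr

/-- **stage E**: soundness of the product of the entries -/
theorem acc_bodyE {reps : List ℕ} {j v r C Z : ℕ} {typy nly typx nlx : ℕ → ℕ}
    {rowy rowx : ℕ → List ℕ} {T : ℕ → Prop} {D1 : Fam'}
    {cbK : ℕ → ℕ → ((ℕ → ℕ → Cb) → Bool) → Bool}
    (hrowy : RowsG typy nly rowy T (fun k => k = 21) 6 (fun D => ∀ i < j, ¬ Cls reps i D))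
    (hrowx : RowsG typx nlx rowx TZ (fun _ => True) 2 (fun D => Red D 12))
    (hv : v >>> 495 < 4096) (hm : MaskOK v C Z) (hfm : MaskLaw v r)
    (hC : recsAll (fun p t len w => T t ∧
      baseChk (cub 12 (fam 12 4 r)) p (typy t) len w = true) (Nat.land C 15) (C >>> 4))
    (hZ : recsAll (fun p t len w => TZ t ∧
      baseChk (cub 12 (fam 12 4 r)) p (typx t) len w = true) (Nat.land Z 15) (Z >>> 4))
    (hcb : ∀ y x : Fin 13, y ≠ x → y < 12 → x < 12 →
      CbLawG cbK (mapF (piE y x) D1) (HEL reps j (mapF (piE y x) (fam 12 4 r))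
        (hmE (4095 ^^^ (v >>> 495)) y.val x.val))
        (hmE (4095 ^^^ (v >>> 495)) y.val x.val)) :
    Acc (PartP (PDE reps j r) (maskF (Nat.land C 15) (C >>> 4))
        (maskF (Nat.land Z 15) (Z >>> 4)))
      (prodE (pairE cbK (2 ^ 131072 - 1) (cub 12 D1) (4095 ^^^ (v >>> 495)))
        (entsF rowy nly (Nat.land C 15) (C >>> 4))
        (entsF rowx nlx (Nat.land Z 15) (Z >>> 4))) := by
  refine (acc_bodyG (HC := fun y x B => QE reps j B 12 y x ∧ link B 12 = fam 12 4 r)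
    (HF := fun y x => HEL reps j (mapF (piE y x) (fam 12 4 r))
      (hmE (4095 ^^^ (v >>> 495)) y.val x.val)) hv hm ?_ hcb).mono ?_
  · intro y x hyx hy hx hmy hmx B hB
    exact HEL.frame hyx hy hx hB.1 hB.2 fun t ht hb =>
      mask_nbr (hfm B hB.1.best.odd hB.2) hyx hy hx hmy hmx t ht hb
  · intro h3 y x hym hxm B hQ hr
    have hB := hQ.best.odd
    obtain ⟨a, ha, haG⟩ := ents_hasG (inv_low reps j) hrowy hC hQ.cy.symm hym
      (B := B) ⟨hB, hr, le_of_eq hQ.hy, hQ.low⟩ (by rw [hQ.edge])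
    obtain ⟨b, hb, hbG⟩ := ents_hasG inv_red hrowx hZ hQ.cx.symm hxm
      (B := B) ⟨hB, hr, hQ.hx, red_of_best hQ.best hQ.min 12⟩ trivial
    exact h3 a ha b hb y x B ⟨hQ, hr⟩ haG hbG

/-! ### stage B1a -/

/-- the pair `(y, x)` of the centre `r` is impossible, stage B1a -/
def PDB (r : ℕ) (y x : Fin 13) : Prop := ∀ B, QB B 12 y x → link B 12 = fam 12 4 r → False

/-- the centre from all its pairs -/
theorem cenB_of_part {v r : ℕ} (hfm : MaskLaw v r)
    (h : PartP (PDB r) (4095 ^^^ (v >>> 495)) (v >>> 495)) : CenB1a r := by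
  intro B y x hQ hr
  have hB := hQ.best.odd
  have hy := lt_twelve hQ.cy.symm
  have hx := lt_twelve hQ.cz.symm
  exact h y x ((hfm B hB hr y hy).2 (le_of_eq hQ.edge.symm)) (zero_bit hfm hB hr hx hQ.mm_cz) B
    hQ hr

/-- **stage B1a**: soundness of the product of the entries -/
theorem acc_bodyB {mc v r C Z : ℕ} {red : Bool} {typy nly typx nlx : ℕ → ℕ}
    {rowy rowx : ℕ → List ℕ} {T : ℕ → Prop} {D1 : Fam'}
    {cbK : ℕ → ℕ → ((ℕ → ℕ → Cb) → Bool) → Bool}
    (hmc : 2 * (fam 12 4 r).card = 114 + mc)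
    (hred : red = false → ¬ Red (fam 12 4 r) 12)
    (hrowy : RowsG typy nly rowy T (fun k => k = 21) 6 (fun D => 114 + mc ≤ 2 * D.card))
    (hrowx : RowsG typx nlx rowx TZ (fun _ => True) 4 (PB mc red))
    (hv : v >>> 495 < 4096) (hm : MaskOK v C Z) (hfm : MaskLaw v r)
    (hC : recsAll (fun p t len w => T t ∧
      baseChk (cub 12 (fam 12 4 r)) p (typy t) len w = true) (Nat.land C 15) (C >>> 4))
    (hZ : recsAll (fun p t len w => TZ t ∧
      baseChk (cub 12 (fam 12 4 r)) p (typx t) len w = true) (Nat.land Z 15) (Z >>> 4))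
    (hcb : ∀ y x : Fin 13, y ≠ x → y < 12 → x < 12 →
      CbLawG cbK (mapF (piE y x) D1) (HBL (mapF (piE y x) (fam 12 4 r))
        (hmE (4095 ^^^ (v >>> 495)) y.val x.val))
        (hmE (4095 ^^^ (v >>> 495)) y.val x.val)) :
    Acc (PartP (PDB r) (maskF (Nat.land C 15) (C >>> 4)) (maskF (Nat.land Z 15) (Z >>> 4)))
      (prodE (pairE cbK (2 ^ 131072 - 1) (cub 12 D1) (4095 ^^^ (v >>> 495)))
        (entsF rowy nly (Nat.land C 15) (C >>> 4))
        (entsF rowx nlx (Nat.land Z 15) (Z >>> 4))) := by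
  refine (acc_bodyG (HC := fun y x B => QB B 12 y x ∧ link B 12 = fam 12 4 r)
    (HF := fun y x => HBL (mapF (piE y x) (fam 12 4 r))
      (hmE (4095 ^^^ (v >>> 495)) y.val x.val)) hv hm ?_ hcb).mono ?_
  · intro y x hyx hy hx hmy hmx B hB
    exact HBL.frame hyx hy hx hB.1 hB.2 fun t ht hb =>
      mask_nbr (hfm B hB.1.best.odd hB.2) hyx hy hx hmy hmx t ht hb
  · intro h3 y x hym hxm B hQ hr
    have hB := hQ.best.odd
    have hc : MM B 12 = mc := by
      have h4 := two_mul_card_link hB 12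
      rw [hr] at h4
      omega
    obtain ⟨a, ha, haG⟩ := ents_hasG (inv_size_ge (114 + mc)) hrowy hC hQ.cy.symm hym
      (B := B) ⟨hB, hr, hQ.hy, by
        show 114 + mc ≤ 2 * (link B y).card
        rw [two_mul_card_link hB y, ← hc]
        have := hQ.hcy
        omega⟩ (by rw [hQ.edge])
    obtain ⟨b, hb, hbG⟩ := ents_hasG (inv_PB mc red) hrowx hZ hQ.cz.symm hxm
      (B := B) ⟨hB, hr, hQ.hz, hQ.pb hc fun h4 => by rw [hr]; exact hred h4⟩ trivial
    exact h3 a ha b hb y x B ⟨hQ, hr⟩ haG hbG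

/-! ### with the rows of helper49 and the checks of the records -/

theorem rowsG_of_21 {typ nl : ℕ → ℕ} {row : ℕ → List ℕ} {NT cap : ℕ} {P : Fam → Prop}
    (h : Rows21 typ nl row NT cap P) :
    RowsG typ nl row (fun t => 2 ≤ t ∧ t < NT) (fun k => k = 21) cap P :=
  ⟨fun t _ => h.typ_lt t, fun t ht => h.row_lt t ht.1 ht.2,
    fun t ht D h1 h2 h3 h4 h5 => h.rows t ht.1 ht.2 h3 D h1 h2 h4 h5⟩

theorem rowsG_of_Z {typ nl : ℕ → ℕ} {row : ℕ → List ℕ} {cap : ℕ} {P : Fam → Prop}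
    (h : RowsZ typ nl row cap P) : RowsG typ nl row TZ (fun _ => True) cap P :=
  ⟨fun t _ => h.typ_lt t, fun t ht => h.row_lt t ht,
    fun t ht D h1 h2 _ h4 h5 => h.rows t ht D h1 h2 h4 h5⟩

/-- the zero set of a good value -/
theorem good_shr {v : ℕ} (h : Pool.Agent.Helper16.TY.Good 6 v) : v >>> 495 < 4096 := by
  obtain ⟨D, -, -, hv⟩ := h
  have h1 := Pool.Agent.Helper16.TY.code_lt D (Pool.Agent.Helper16.TY.zs D)
  rw [← hv] at h1
  have e : (2 : ℕ) ^ 507 = 2 ^ 495 * 2 ^ 12 := by rw [← pow_add]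
  rw [e] at h1
  have h2 := Nat.div_lt_of_lt_mul h1
  rw [← Nat.shiftRight_eq_div_pow] at h2
  have e2 : (4096 : ℕ) = 2 ^ 12 := by norm_num
  rw [e2]
  exact h2

theorem maskLaw_of_good {v : ℕ} (hv : Pool.Agent.Helper16.TY.Good 6 v) :
    MaskLaw v (v % 2 ^ 495) :=
  fun B hB hr => Pool.Agent.Helper52.TY.nbr_of_good hv B hB hr

/-- **stage E**, the value `v` of a centre, its records checked -/
theorem acc_cenE {reps : List ℕ} {j v C Z NT : ℕ} {typy nly typx nlx : ℕ → ℕ}
    {rowy rowx : ℕ → List ℕ} {D1 : Fam'} {cbK : ℕ → ℕ → ((ℕ → ℕ → Cb) → Bool) → Bool}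
    (hrowy : Rows21 typy nly rowy NT 6 (fun D => ∀ i < j, ¬ Cls reps i D))
    (hrowx : RowsZ typx nlx rowx 2 (fun D => Red D 12))
    (hv : Pool.Agent.Helper16.TY.Good 6 v)
    (hC : recsChk typy NT (cub 12 (fam 12 4 (v % 2 ^ 495))) (Nat.land C 15) 0 (C >>> 4) = true)
    (hZ : zChk typx (cub 12 (fam 12 4 (v % 2 ^ 495))) (Nat.land Z 15) (Z >>> 4) = true)
    (hcb : ∀ y x : Fin 13, y ≠ x → y < 12 → x < 12 →
      CbLawG cbK (mapF (piE y x) D1) (HEL reps j (mapF (piE y x) (fam 12 4 (v % 2 ^ 495)))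
        (hmE (4095 ^^^ (v >>> 495)) y.val x.val)) (hmE (4095 ^^^ (v >>> 495)) y.val x.val)) :
    Acc (CenE reps j (v % 2 ^ 495)) (cenEK rowy nly rowx nlx cbK v (cub 12 D1) C Z) :=
  (acc_cenEK fun hm => acc_bodyE (rowsG_of_21 hrowy) (rowsG_of_Z hrowx) (good_shr hv) hm
    (maskLaw_of_good hv) (recsAll_of_recsChk hC) (recsAll_of_zChk hZ) hcb).mono fun h =>
      cenE_of_part (maskLaw_of_good hv) (by rw [← h.1.1, ← h.1.2]; exact h.2)

/-- **stage B1a**, the value `v` of a centre, its records checked -/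
theorem acc_cenB {mc v C Z NT : ℕ} {red : Bool} {typy nly typx nlx : ℕ → ℕ}
    {rowy rowx : ℕ → List ℕ} {D1 : Fam'} {cbK : ℕ → ℕ → ((ℕ → ℕ → Cb) → Bool) → Bool}
    (hmc : 2 * (fam 12 4 (v % 2 ^ 495)).card = 114 + mc)
    (hred : red = false → ¬ Red (fam 12 4 (v % 2 ^ 495)) 12)
    (hrowy : Rows21 typy nly rowy NT 6 (fun D => 114 + mc ≤ 2 * D.card))
    (hrowx : RowsZ typx nlx rowx 4 (PB mc red))
    (hv : Pool.Agent.Helper16.TY.Good 6 v)
    (hC : recsChk typy NT (cub 12 (fam 12 4 (v % 2 ^ 495))) (Nat.land C 15) 0 (C >>> 4) = true)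
    (hZ : zChk typx (cub 12 (fam 12 4 (v % 2 ^ 495))) (Nat.land Z 15) (Z >>> 4) = true)
    (hcb : ∀ y x : Fin 13, y ≠ x → y < 12 → x < 12 →
      CbLawG cbK (mapF (piE y x) D1) (HBL (mapF (piE y x) (fam 12 4 (v % 2 ^ 495)))
        (hmE (4095 ^^^ (v >>> 495)) y.val x.val)) (hmE (4095 ^^^ (v >>> 495)) y.val x.val)) :
    Acc (CenB1a (v % 2 ^ 495)) (cenEK rowy nly rowx nlx cbK v (cub 12 D1) C Z) :=
  (acc_cenEK fun hm => acc_bodyB hmc hred (rowsG_of_21 hrowy) (rowsG_of_Z hrowx) (good_shr hv) hm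
    (maskLaw_of_good hv) (recsAll_of_recsChk hC) (recsAll_of_zChk hZ) hcb).mono fun h =>
      cenB_of_part (maskLaw_of_good hv) (by rw [← h.1.1, ← h.1.2]; exact h.2)

end Pool.Agent.Helper9.TY
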