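import Mathlib
import Pool.Agent.Helper9.TY.CentreE
import Pool.Agent.Helper16.TY.RunFin
import Pool.Agent.Helper25.TY.SRoot
import Pool.Agent.Helper79.CV.FastCub
import Pool.Agent.Helper47.TY.DEng

/-!
MP_8ee768_co, project TH-Y', stages E / B1a: the checks of the centres and of their parts.

All data functions are parameters: `tv` class values, `typy` pair types with rows `rowy j`, `nly j` (from the
class `j` on), `typx` the two types with 19 triples with rows `rowx`, `nlx`, `rootR` the root cube of the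
callback builder `cbK`.

* `oneE .. j C Z S`: the centre `j` with records `C`, `Z` and stream `S`; `onePE .. j mC mZ C Z S`: a part;
* `SegE reps tv a b`: the centres `a ≤ j < b` are done; `SegE.app`, `segE_of_parts`;
* the same for B1a: `oneB .. j m w C Z S`, `onePB`, `SegB` (`m` = excess of the centre, `w` = 0 or the mask
  of a 5-set which shows that the centre is not reduced).
-/

set_option autoImplicit false
set_option maxRecDepth 100000
set_option exponentiation.threshold 2000000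

namespace Pool.Agent.Helper9.TY

open Finset
open Pool.Agent.Helper89.CV (OddCover ofMask)
open Pool.Agent.Helper97.CV
open Pool.Agent.Helper63.SIMD
open Pool.Agent.Helper79.CV
open Pool.Agent.Helper33.CV
open Pool.Agent.Helper82.TY (below Best Lay popR)
open Pool.Agent.Helper52.TY (Fam')
open Pool.Agent.Helper63.TY (Cb Acc)
open Pool.Agent.Helper38.TY
open Pool.Agent.Helper91.TY hiding Acc
open Pool.Agent.Helper49.TY
open Pool.Agent.Helper41.TY (prodE pairE cenEK cenEP cenEPF cenEP_eq)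
open Pool.Agent.Helper16.TY (Good)

/-! ### the records -/

/-- value, cube and records of a centre -/
noncomputable def preG (tv typy : ℕ → ℕ) (NT : ℕ) (typx : ℕ → ℕ) (j C Z : ℕ)
    (k : ℕ → ℕ → Bool) : Bool :=
  frS C (tv j) fun v => frS C (cub4 (Nat.land v (Nat.sub (Nat.pow 2 495) 1))) fun R =>
    ite0 (recsChk typy NT R (Nat.land C 15) 0 (Nat.shiftRight C 4)) false
      (ite0 (zChk typx R (Nat.land Z 15) (Nat.shiftRight Z 4)) false (k v R))

theorem land_495 (v : ℕ) : Nat.land v (Nat.sub (Nat.pow 2 495) 1) = v % 2 ^ 495 := by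
  show v &&& (2 ^ 495 - 1) = _
  exact Nat.and_two_pow_sub_one_eq_mod v 495

theorem preG_split {tv typy : ℕ → ℕ} {NT : ℕ} {typx : ℕ → ℕ} {j C Z : ℕ}
    {k : ℕ → ℕ → Bool} (h : preG tv typy NT typx j C Z k = true) :
    recsChk typy NT (cub 12 (fam 12 4 (tv j % 2 ^ 495))) (Nat.land C 15) 0 (C >>> 4) = true ∧
    zChk typx (cub 12 (fam 12 4 (tv j % 2 ^ 495))) (Nat.land Z 15) (Z >>> 4) = true ∧
    k (tv j) (cub 12 (fam 12 4 (tv j % 2 ^ 495))) = true := by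
  unfold preG at h
  simp only [frS_eq] at h
  rw [land_495, cub4_eq (Nat.mod_lt _ (Nat.two_pow_pos 495))] at h
  obtain ⟨h1, h⟩ := Pool.Agent.Helper91.TY.ite0_and h
  obtain ⟨h2, h⟩ := Pool.Agent.Helper91.TY.ite0_and h
  exact ⟨h1, h2, h⟩

/-- the mask of the positions of `n` records -/
noncomputable def msk (n : ℕ) : ℕ → ℕ :=
  @Nat.rec (fun _ => ℕ → ℕ) (fun _ => 0)
    (fun _ ih C => Nat.lor (Nat.pow 2 (rP C)) (ih (Nat.shiftRight C 112))) n

theorem msk_eq (n C : ℕ) : msk n C = maskF n C := by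
  induction n generalizing C with
  | zero => rfl
  | succ n ih =>
    show Nat.lor (Nat.pow 2 (rP C)) (msk n (C >>> 112)) = 2 ^ rP C ||| maskF n (C >>> 112)
    rw [ih]
    rfl

/-- the masks of a part -/
noncomputable def mskOK (v mC mZ C Z : ℕ) : Bool :=
  ite0 (Nat.beq (msk (Nat.land C 15) (Nat.shiftRight C 4)) mC) false
    (ite0 (Nat.beq (msk (Nat.land Z 15) (Nat.shiftRight Z 4)) mZ) false
      (frS C (Nat.shiftRight v 495) fun z =>
        ite0 (Nat.beq (Nat.lor mC (Nat.xor 4095 z)) (Nat.xor 4095 z)) false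
          (Nat.beq (Nat.lor mZ z) z)))

theorem bit_of_lor {a m p : ℕ} (h : a ||| m = m) (hp : a.testBit p = true) :
    m.testBit p = true := by
  rw [← h, Nat.testBit_or, hp, Bool.true_or]

theorem mskOK_sound {v mC mZ C Z : ℕ} (h : mskOK v mC mZ C Z = true) :
    maskF (Nat.land C 15) (C >>> 4) = mC ∧ maskF (Nat.land Z 15) (Z >>> 4) = mZ ∧
      MaskOK v C Z := by
  unfold mskOK at h
  obtain ⟨h1, h⟩ := Pool.Agent.Helper91.TY.ite0_and h
  obtain ⟨h2, h⟩ := Pool.Agent.Helper91.TY.ite0_and h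
  rw [frS_eq] at h
  obtain ⟨h3, h4⟩ := Pool.Agent.Helper91.TY.ite0_and h
  have e1 : maskF (Nat.land C 15) (C >>> 4) = mC := by
    rw [← msk_eq]
    exact Nat.eq_of_beq_eq_true h1
  have e2 : maskF (Nat.land Z 15) (Z >>> 4) = mZ := by
    rw [← msk_eq]
    exact Nat.eq_of_beq_eq_true h2
  have h5 : mC ||| (4095 ^^^ (v >>> 495)) = 4095 ^^^ (v >>> 495) := Nat.eq_of_beq_eq_true h3
  have h6 : mZ ||| (v >>> 495) = v >>> 495 := Nat.eq_of_beq_eq_true h4
  exact ⟨e1, e2, fun p hp => bit_of_lor h5 (by rw [← e1]; exact hp),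
    fun p hp => bit_of_lor h6 (by rw [← e2]; exact hp)⟩

/-- acceptance of the part function -/
theorem acc_cenEP {cbK : ℕ → ℕ → ((ℕ → ℕ → Cb) → Bool) → Bool} {v R C Z : ℕ}
    {rowy rowx : ℕ → List ℕ} {nly nlx : ℕ → ℕ} {P : Prop}
    (h : Acc P (prodE (pairE cbK (2 ^ 131072 - 1) R (4095 ^^^ (v >>> 495)))
        (entsF rowy nly (Nat.land C 15) (C >>> 4))
        (entsF rowx nlx (Nat.land Z 15) (Z >>> 4)))) :
    Acc P (cenEP rowy nly rowx nlx cbK v R C Z) := by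
  intro s c h0
  rw [cenEP_eq] at h0
  exact h s c h0

/-! ### stage E -/

/-- the centre `j` -/
noncomputable def oneE (tv typy : ℕ → ℕ) (NT : ℕ) (rowy : ℕ → ℕ → List ℕ) (nly : ℕ → ℕ → ℕ)
    (typx : ℕ → ℕ) (rowx : ℕ → List ℕ) (nlx : ℕ → ℕ) (rootR : ℕ → ℕ → ℕ)
    (cbK : ℕ → ℕ → ((ℕ → ℕ → Cb) → Bool) → Bool) (j C Z S : ℕ) : Bool :=
  preG tv typy NT typx j C Z fun v R => frS C (rootR v R) fun R1 =>
    cenEK (rowy j) (nly j) rowx nlx cbK v R1 C Z S fun _ => true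

/-- a part of the centre `j` with the masks `mC`, `mZ` -/
noncomputable def onePE (tv typy : ℕ → ℕ) (NT : ℕ) (rowy : ℕ → ℕ → List ℕ) (nly : ℕ → ℕ → ℕ)
    (typx : ℕ → ℕ) (rowx : ℕ → List ℕ) (nlx : ℕ → ℕ) (rootR : ℕ → ℕ → ℕ)
    (cbK : ℕ → ℕ → ((ℕ → ℕ → Cb) → Bool) → Bool) (j mC mZ C Z S : ℕ) : Bool :=
  preG tv typy NT typx j C Z fun v R => ite0 (mskOK v mC mZ C Z) false
    (frS C (rootR v R) fun R1 =>
      cenEP (rowy j) (nly j) rowx nlx cbK v R1 C Z S fun _ => true)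

/-- the value is a link of an odd cover -/
def Occ (r : ℕ) : Prop := ∃ B : Fam', OddCover B ∧ link B 12 = fam 12 4 r

/-- the laws of the data of stage E; `D1` = the root family of the callback -/
structure LawE (reps : List ℕ) (tv typy : ℕ → ℕ) (NT : ℕ) (rowy : ℕ → ℕ → List ℕ)
    (nly : ℕ → ℕ → ℕ) (typx : ℕ → ℕ) (rowx : ℕ → List ℕ) (nlx : ℕ → ℕ) (rootR : ℕ → ℕ → ℕ)
    (cbK : ℕ → ℕ → ((ℕ → ℕ → Cb) → Bool) → Bool) (D1 : Fam' → Fam') : Prop where
  good : ∀ j, Good 6 (tv j)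
  rows : ∀ j, j ≤ 32768 → Rows21 typy (nly j) (rowy j) NT 6 (fun D => ∀ i < j, ¬ Cls reps i D)
  rowsx : RowsZ typx nlx rowx 2 (fun D => Red D 12)
  root : ∀ v, Good 6 v → Occ (v % 2 ^ 495) → rootR v (cub 12 (fam 12 4 (v % 2 ^ 495))) =
    cub 12 (D1 (fam 12 4 (v % 2 ^ 495)))
  cb : ∀ v j, Good 6 v → ∀ y x : Fin 13, y ≠ x → y < 12 → x < 12 →
    CbLawG cbK (mapF (piE y x) (D1 (fam 12 4 (v % 2 ^ 495))))
      (HEL reps j (mapF (piE y x) (fam 12 4 (v % 2 ^ 495)))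
        (hmE (4095 ^^^ (v >>> 495)) y.val x.val)) (hmE (4095 ^^^ (v >>> 495)) y.val x.val)

section E

variable {reps : List ℕ} {tv typy : ℕ → ℕ} {NT : ℕ} {rowy : ℕ → ℕ → List ℕ}
  {nly : ℕ → ℕ → ℕ} {typx : ℕ → ℕ} {rowx : ℕ → List ℕ} {nlx : ℕ → ℕ} {rootR : ℕ → ℕ → ℕ}
  {cbK : ℕ → ℕ → ((ℕ → ℕ → Cb) → Bool) → Bool} {D1 : Fam' → Fam'}

/-- **one centre** -/
theorem oneE_sound (h : LawE reps tv typy NT rowy nly typx rowx nlx rootR cbK D1)
    {j C Z S : ℕ} (hj : j ≤ 32768)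
    (hb : oneE tv typy NT rowy nly typx rowx nlx rootR cbK j C Z S = true) :
    CenE reps j (tv j % 2 ^ 495) := by
  by_cases hocc : Occ (tv j % 2 ^ 495)
  swap
  · exact fun B p q hQ hr => absurd ⟨B, hQ.best.odd, hr⟩ hocc
  obtain ⟨h1, h2, h3⟩ := preG_split hb
  rw [frS_eq, h.root _ (h.good j) hocc] at h3
  exact (acc_cenE (h.rows j hj) h.rowsx (h.good j) h1 h2 (h.cb _ j (h.good j)) S _ h3).1

/-- **one part** -/
theorem onePE_sound (h : LawE reps tv typy NT rowy nly typx rowx nlx rootR cbK D1)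
    {j mC mZ C Z S : ℕ} (hj : j ≤ 32768)
    (hb : onePE tv typy NT rowy nly typx rowx nlx rootR cbK j mC mZ C Z S = true) :
    PartP (PDE reps j (tv j % 2 ^ 495)) mC mZ := by
  by_cases hocc : Occ (tv j % 2 ^ 495)
  swap
  · exact fun y x _ _ B hQ hr => absurd ⟨B, hQ.best.odd, hr⟩ hocc
  obtain ⟨h1, h2, h3⟩ := preG_split hb
  obtain ⟨h4, h3⟩ := Pool.Agent.Helper91.TY.ite0_and h3
  obtain ⟨e1, e2, hm⟩ := mskOK_sound h4
  rw [frS_eq, h.root _ (h.good j) hocc] at h3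
  have h5 := (acc_cenEP (acc_bodyE (rowsG_of_21 (h.rows j hj)) (rowsG_of_Z h.rowsx)
    (good_shr (h.good j)) hm (maskLaw_of_good (h.good j)) (recsAll_of_recsChk h1)
    (recsAll_of_zChk h2) (h.cb _ j (h.good j))) S _ h3).1
  rw [e1, e2] at h5
  exact h5

end E

/-- the centres `a ≤ j < b` are done -/
def SegE (reps : List ℕ) (tv : ℕ → ℕ) (a b : ℕ) : Prop :=
  ∀ j, a ≤ j → j < b → CenE reps j (tv j % 2 ^ 495)

theorem SegE.one {reps : List ℕ} {tv : ℕ → ℕ} {j : ℕ} (h : CenE reps j (tv j % 2 ^ 495)) :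
    SegE reps tv j (j + 1) := by
  intro i h1 h2
  obtain rfl : i = j := by omega
  exact h

theorem SegE.app {reps : List ℕ} {tv : ℕ → ℕ} {a b c : ℕ} (h : SegE reps tv a b)
    (h' : SegE reps tv b c) : SegE reps tv a c := by
  intro j h1 h2
  by_cases h3 : j < b
  · exact h j h1 h3
  · exact h' j (not_lt.1 h3) h2

/-- the masks of the parts cover the centre `j` -/
noncomputable def covJ (tv : ℕ → ℕ) (j : ℕ) (ps : List (ℕ × ℕ)) : Bool :=
  frS j (Nat.shiftRight (tv j) 495) fun z => covP (Nat.xor 4095 z) z ps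

/-- all pairs of the centre from its parts -/
theorem partP_of_covJ {tv : ℕ → ℕ} {j : ℕ} (hg : Good 6 (tv j)) {ps : List (ℕ × ℕ)}
    (hc : covJ tv j ps = true) {PD : Fin 13 → Fin 13 → Prop} (h : AllP PD ps) :
    PartP PD (4095 ^^^ (tv j >>> 495)) (tv j >>> 495) := by
  unfold covJ at hc
  rw [frS_eq] at hc
  have h1 := good_shr hg
  exact partP_of_cov (Nat.xor_lt_two_pow (n := 12) (by norm_num) h1) h1 hc h

theorem segE_of_parts {reps : List ℕ} {tv : ℕ → ℕ} {j : ℕ} (hg : Good 6 (tv j))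
    {ps : List (ℕ × ℕ)} (hc : covJ tv j ps = true)
    (h : AllP (PDE reps j (tv j % 2 ^ 495)) ps) : SegE reps tv j (j + 1) :=
  SegE.one (cenE_of_part (maskLaw_of_good hg) (partP_of_covJ hg hc h))

/-! ### stage B1a -/

/-- the size of the family of a value -/
theorem card_val (v : ℕ) : (fam 12 4 (v % 2 ^ 495)).card = popR (v % 2 ^ 495) :=
  Pool.Agent.Helper47.TY.card_fam_eq (by norm_num) (by
    have e : (12 : ℕ).choose 4 = 495 := by decide
    rw [e]
    exact Nat.mod_lt _ (Nat.two_pow_pos 495)) (by decide)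

/-- excess `m` of the centre, `w = 0` or witness that it is not reduced -/
noncomputable def preB (v m w : ℕ) : Bool :=
  frS w (Nat.land v (Nat.sub (Nat.pow 2 495) 1)) fun r =>
    ite0 (Nat.beq (Nat.mul 2 (popR r)) (Nat.add 114 m)) false
      (ite0 (Nat.beq w 0)
        (Pool.Agent.Helper25.TY.nrChk (Nat.shiftRight r 330) w
          (Nat.land r (Nat.sub (Nat.pow 2 330) 1))) true)

theorem preB_sound {v m w : ℕ} (h : preB v m w = true) :
    2 * (fam 12 4 (v % 2 ^ 495)).card = 114 + m ∧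
      ((!Nat.beq w 0) = true → ¬ Red (fam 12 4 (v % 2 ^ 495)) 12) := by
  unfold preB at h
  rw [frS_eq, land_495] at h
  obtain ⟨h1, h2⟩ := Pool.Agent.Helper91.TY.ite0_and h
  refine ⟨by rw [card_val]; exact Nat.eq_of_beq_eq_true h1, fun hw => ?_⟩
  rw [Bool.not_eq_true'] at hw
  rw [hw, ite0_false] at h2
  have h3 := Pool.Agent.Helper25.TY.nrChk_sound h2
  have e : Nat.land (v % 2 ^ 495) (Nat.sub (Nat.pow 2 330) 1) +
      2 ^ 330 * Nat.shiftRight (v % 2 ^ 495) 330 = v % 2 ^ 495 := by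
    have e1 : Nat.land (v % 2 ^ 495) (Nat.sub (Nat.pow 2 330) 1) = (v % 2 ^ 495) % 2 ^ 330 := by
      show (v % 2 ^ 495) &&& (2 ^ 330 - 1) = _
      exact Nat.and_two_pow_sub_one_eq_mod _ 330
    have e2 : Nat.shiftRight (v % 2 ^ 495) 330 = (v % 2 ^ 495) / 2 ^ 330 :=
      Nat.shiftRight_eq_div_pow _ _
    rw [e1, e2]
    exact Nat.mod_add_div _ _
  unfold Pool.Agent.Helper16.TY.eF at h3
  rw [e] at h3
  exact h3

/-- the kind of the `x` lists: 0 = excess at most 2, 1 = reduced up to 4, 2 = up to 4 -/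
def kindB (m w : ℕ) : ℕ :=
  ite0 (Nat.beq w 0) 0 (ite0 (Nat.beq m 4) 2 1)

/-- the centre `j` -/
noncomputable def oneB (tv typy : ℕ → ℕ) (NT : ℕ) (rowy : ℕ → ℕ → List ℕ) (nly : ℕ → ℕ → ℕ)
    (j0 : ℕ → ℕ) (typx : ℕ → ℕ) (rowx : ℕ → ℕ → List ℕ) (nlx : ℕ → ℕ → ℕ)
    (rootR : ℕ → ℕ → ℕ) (cbK : ℕ → ℕ → ((ℕ → ℕ → Cb) → Bool) → Bool)
    (j m w C Z S : ℕ) : Bool :=
  preG tv typy NT typx j C Z fun v R => ite0 (preB v m w) false
    (frS C (rootR v R) fun R1 => frS C (j0 m) fun i => frS C (kindB m w) fun k =>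
      cenEK (rowy i) (nly i) (rowx k) (nlx k) cbK v R1 C Z S fun _ => true)

/-- a part of the centre `j` with the masks `mC`, `mZ` -/
noncomputable def onePB (tv typy : ℕ → ℕ) (NT : ℕ) (rowy : ℕ → ℕ → List ℕ) (nly : ℕ → ℕ → ℕ)
    (j0 : ℕ → ℕ) (typx : ℕ → ℕ) (rowx : ℕ → ℕ → List ℕ) (nlx : ℕ → ℕ → ℕ)
    (rootR : ℕ → ℕ → ℕ) (cbK : ℕ → ℕ → ((ℕ → ℕ → Cb) → Bool) → Bool)
    (j m w mC mZ C Z S : ℕ) : Bool :=
  preG tv typy NT typx j C Z fun v R => ite0 (preB v m w) false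
    (ite0 (mskOK v mC mZ C Z) false
      (frS C (rootR v R) fun R1 => frS C (j0 m) fun i => frS C (kindB m w) fun k =>
        cenEP (rowy i) (nly i) (rowx k) (nlx k) cbK v R1 C Z S fun _ => true))

/-- the laws of the data of stage B1a -/
structure LawB (tv typy : ℕ → ℕ) (NT : ℕ) (rowy : ℕ → ℕ → List ℕ)
    (nly : ℕ → ℕ → ℕ) (j0 : ℕ → ℕ) (typx : ℕ → ℕ) (rowx : ℕ → ℕ → List ℕ)
    (nlx : ℕ → ℕ → ℕ) (rootR : ℕ → ℕ → ℕ)
    (cbK : ℕ → ℕ → ((ℕ → ℕ → Cb) → Bool) → Bool) (D1 : Fam' → Fam') : Prop where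
  good : ∀ j, Good 6 (tv j)
  rows : ∀ m, m = 2 ∨ m = 4 →
    Rows21 typy (nly (j0 m)) (rowy (j0 m)) NT 6 (fun D => 114 + m ≤ 2 * D.card)
  rows0 : RowsZ typx (nlx 0) (rowx 0) 2 (fun D => Red D 12)
  rows1 : RowsZ typx (nlx 1) (rowx 1) 4 (fun D => Red D 12)
  rows2 : RowsZ typx (nlx 2) (rowx 2) 4 (PB 2 true)
  root : ∀ v, Good 6 v → Occ (v % 2 ^ 495) → rootR v (cub 12 (fam 12 4 (v % 2 ^ 495))) =
    cub 12 (D1 (fam 12 4 (v % 2 ^ 495)))
  cb : ∀ v, Good 6 v → ∀ y x : Fin 13, y ≠ x → y < 12 → x < 12 →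
    CbLawG cbK (mapF (piE y x) (D1 (fam 12 4 (v % 2 ^ 495))))
      (HBL (mapF (piE y x) (fam 12 4 (v % 2 ^ 495)))
        (hmE (4095 ^^^ (v >>> 495)) y.val x.val)) (hmE (4095 ^^^ (v >>> 495)) y.val x.val)

/-- the rows of the kind belong to the property `PB` -/
theorem kind_rows {typx : ℕ → ℕ} {rowx : ℕ → ℕ → List ℕ} {nlx : ℕ → ℕ → ℕ}
    (h0 : RowsZ typx (nlx 0) (rowx 0) 2 (fun D => Red D 12))
    (h1 : RowsZ typx (nlx 1) (rowx 1) 4 (fun D => Red D 12))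
    (h2 : RowsZ typx (nlx 2) (rowx 2) 4 (PB 2 true)) {m w : ℕ} (hm : m = 2 ∨ m = 4) :
    RowsZ typx (nlx (kindB m w)) (rowx (kindB m w)) 4 (PB m (Nat.beq w 0)) := by
  unfold kindB
  cases hw : Nat.beq w 0 with
  | false =>
    rw [ite0_false]
    refine ⟨h0.typ_lt, h0.row_lt, fun t ht D g1 g2 g3 g4 => h0.rows t ht D g1 g2 ?_ (g4.1 ?_)⟩
    · have := g4.2 rfl
      omega
    · have := g4.2 rfl
      omega
  | true =>
    rw [ite0_true]
    rcases hm with rfl | rfl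
    · exact h2
    · refine ⟨h1.typ_lt, h1.row_lt, fun t ht D g1 g2 g3 g4 => h1.rows t ht D g1 g2 g3 (g4.1 g3)⟩

section B

variable {tv typy : ℕ → ℕ} {NT : ℕ} {rowy : ℕ → ℕ → List ℕ}
  {nly : ℕ → ℕ → ℕ} {j0 : ℕ → ℕ} {typx : ℕ → ℕ} {rowx : ℕ → ℕ → List ℕ} {nlx : ℕ → ℕ → ℕ}
  {rootR : ℕ → ℕ → ℕ} {cbK : ℕ → ℕ → ((ℕ → ℕ → Cb) → Bool) → Bool} {D1 : Fam' → Fam'}

theorem red_iff {w : ℕ} {r : ℕ} (h : (!Nat.beq w 0) = true → ¬ Red (fam 12 4 r) 12) :
    Nat.beq w 0 = false → ¬ Red (fam 12 4 r) 12 := by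
  intro h1
  exact h (by rw [h1]; rfl)

/-- **one centre** -/
theorem oneB_sound (h : LawB tv typy NT rowy nly j0 typx rowx nlx rootR cbK D1)
    {j m w C Z S : ℕ} (hm : m = 2 ∨ m = 4)
    (hb : oneB tv typy NT rowy nly j0 typx rowx nlx rootR cbK j m w C Z S = true) :
    CenB1a (tv j % 2 ^ 495) := by
  by_cases hocc : Occ (tv j % 2 ^ 495)
  swap
  · exact fun B p q hQ hr => absurd ⟨B, hQ.best.odd, hr⟩ hocc
  obtain ⟨h1, h2, h3⟩ := preG_split hb
  obtain ⟨h4, h3⟩ := Pool.Agent.Helper91.TY.ite0_and h3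
  obtain ⟨h5, h6⟩ := preB_sound h4
  simp only [frS_eq] at h3
  rw [h.root _ (h.good j) hocc] at h3
  exact (acc_cenB h5 (red_iff h6) (h.rows m hm) (kind_rows h.rows0 h.rows1 h.rows2 hm) (h.good j)
    h1 h2 (h.cb _ (h.good j)) S _ h3).1

/-- **one part** -/
theorem onePB_sound (h : LawB tv typy NT rowy nly j0 typx rowx nlx rootR cbK D1)
    {j m w mC mZ C Z S : ℕ} (hm : m = 2 ∨ m = 4)
    (hb : onePB tv typy NT rowy nly j0 typx rowx nlx rootR cbK j m w mC mZ C Z S = true) :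
    PartP (PDB (tv j % 2 ^ 495)) mC mZ := by
  by_cases hocc : Occ (tv j % 2 ^ 495)
  swap
  · exact fun y x _ _ B hQ hr => absurd ⟨B, hQ.best.odd, hr⟩ hocc
  obtain ⟨h1, h2, h3⟩ := preG_split hb
  obtain ⟨h4, h3⟩ := Pool.Agent.Helper91.TY.ite0_and h3
  obtain ⟨h5, h6⟩ := preB_sound h4
  obtain ⟨h7, h3⟩ := Pool.Agent.Helper91.TY.ite0_and h3
  obtain ⟨e1, e2, hmk⟩ := mskOK_sound h7
  simp only [frS_eq] at h3
  rw [h.root _ (h.good j) hocc] at h3
  have h8 := (acc_cenEP (acc_bodyB h5 (red_iff h6) (rowsG_of_21 (h.rows m hm))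
    (rowsG_of_Z (kind_rows h.rows0 h.rows1 h.rows2 hm))
    (good_shr (h.good j)) hmk (maskLaw_of_good (h.good j)) (recsAll_of_recsChk h1)
    (recsAll_of_zChk h2) (h.cb _ (h.good j))) S _ h3).1
  rw [e1, e2] at h8
  exact h8

end B

/-- the centres `a ≤ j < b` are done -/
def SegB (tv : ℕ → ℕ) (a b : ℕ) : Prop := ∀ j, a ≤ j → j < b → CenB1a (tv j % 2 ^ 495)

theorem SegB.one {tv : ℕ → ℕ} {j : ℕ} (h : CenB1a (tv j % 2 ^ 495)) : SegB tv j (j + 1) := by
  intro i h1 h2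
  obtain rfl : i = j := by omega
  exact h

theorem SegB.app {tv : ℕ → ℕ} {a b c : ℕ} (h : SegB tv a b) (h' : SegB tv b c) :
    SegB tv a c := by
  intro j h1 h2
  by_cases h3 : j < b
  · exact h j h1 h3
  · exact h' j (not_lt.1 h3) h2

theorem segB_of_parts {tv : ℕ → ℕ} {j : ℕ} (hg : Good 6 (tv j))
    {ps : List (ℕ × ℕ)} (hc : covJ tv j ps = true)
    (h : AllP (PDB (tv j % 2 ^ 495)) ps) : SegB tv j (j + 1) :=
  SegB.one (cenB_of_part (maskLaw_of_good hg) (partP_of_covJ hg hc h))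

/-! ### centres excluded by their size -/

/-- a centre of excess 0 or more than 4 is no centre of stage B1a -/
theorem cenB_of_card {r : ℕ} (h : (fam 12 4 r).card < 58 ∨ 60 ≤ (fam 12 4 r).card) :
    CenB1a r := by
  intro B p q hQ hl
  have h1 := two_mul_card_link hQ.best.odd 12
  rw [hl] at h1
  have h2 := hQ.hc
  have h3 := Pool.Agent.Helper4.CV.mm_le_MM B hQ.cy
  rw [hQ.edge] at h3
  omega

/-- the sizes of the values `a, .., a + n - 1` are at least `60` -/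
noncomputable def bigChk (tv : ℕ → ℕ) (n : ℕ) : ℕ → Bool :=
  @Nat.rec (fun _ => ℕ → Bool) (fun _ => true)
    (fun _ ih a => ite0 (Nat.ble 60 (popR (Nat.land (tv a) (Nat.sub (Nat.pow 2 495) 1)))) false
      (frS a (Nat.succ a) fun a' => ih a')) n

theorem bigChk_sound {tv : ℕ → ℕ} : ∀ {n a : ℕ}, bigChk tv n a = true →
    ∀ j, a ≤ j → j < a + n → 60 ≤ (fam 12 4 (tv j % 2 ^ 495)).card
  | 0, a, _, j, h1, h2 => by omega
  | n + 1, a, h, j, h1, h2 => by
    have h0 : ite0 (Nat.ble 60 (popR (Nat.land (tv a) (Nat.sub (Nat.pow 2 495) 1)))) false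
      (frS a (Nat.succ a) fun a' => bigChk tv n a') = true := h
    obtain ⟨h3, h4⟩ := Pool.Agent.Helper91.TY.ite0_and h0
    rw [frS_eq] at h4
    by_cases h5 : j = a
    · rw [h5, card_val, ← land_495]
      exact Nat.le_of_ble_eq_true h3
    · exact bigChk_sound h4 j (by
        show a + 1 ≤ j
        omega) (by
        show j < a + 1 + n
        omega)

/-- the sizes of the values `a, .., a + n - 1` are less than `K` -/
noncomputable def smallChk (tv : ℕ → ℕ) (K n : ℕ) : ℕ → Bool :=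
  @Nat.rec (fun _ => ℕ → Bool) (fun _ => true)
    (fun _ ih a => ite0 (Nat.ble (Nat.succ (popR (Nat.land (tv a)
      (Nat.sub (Nat.pow 2 495) 1)))) K) false (frS a (Nat.succ a) fun a' => ih a')) n

theorem smallChk_sound {tv : ℕ → ℕ} {K : ℕ} : ∀ {n a : ℕ}, smallChk tv K n a = true →
    ∀ j, a ≤ j → j < a + n → (fam 12 4 (tv j % 2 ^ 495)).card < K
  | 0, a, _, j, h1, h2 => by omega
  | n + 1, a, h, j, h1, h2 => by
    have h0 : ite0 (Nat.ble (Nat.succ (popR (Nat.land (tv a)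
      (Nat.sub (Nat.pow 2 495) 1)))) K) false
      (frS a (Nat.succ a) fun a' => smallChk tv K n a') = true := h
    obtain ⟨h3, h4⟩ := Pool.Agent.Helper91.TY.ite0_and h0
    rw [frS_eq] at h4
    by_cases h5 : j = a
    · rw [h5, card_val, ← land_495]
      exact Nat.le_of_ble_eq_true h3
    · exact smallChk_sound h4 j (by
        show a + 1 ≤ j
        omega) (by
        show j < a + 1 + n
        omega)

/-- **stage E** for the class list of helper16 -/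
theorem cenE_all {tv : ℕ → ℕ} {nc n0 : ℕ} (hs : smallChk tv 60 n0 0 = true)
    (h : SegE ((List.range nc).map fun j => tv j % 2 ^ 495) tv n0 nc) :
    ∀ j r : ℕ, ((List.range nc).map fun j => tv j % 2 ^ 495)[j]? = some r →
      CenE ((List.range nc).map fun j => tv j % 2 ^ 495) j r := by
  intro j r hr
  rw [List.getElem?_map, Option.map_eq_some_iff] at hr
  obtain ⟨i, hi, rfl⟩ := hr
  obtain ⟨hj, he⟩ := List.getElem?_eq_some_iff.1 hi
  rw [List.getElem_range] at he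
  subst he
  rw [List.length_range] at hj
  by_cases h1 : j < n0
  · refine cenE_of_card (ne_of_lt ?_)
    exact smallChk_sound hs j (Nat.zero_le j) (by omega)
  · exact h j (not_lt.1 h1) hj

/-- **stage B1a** for the class list of helper16 -/
theorem cenB_all {tv : ℕ → ℕ} {nc n0 : ℕ}
    (hbig : ∀ j, n0 ≤ j → j < nc → 60 ≤ (fam 12 4 (tv j % 2 ^ 495)).card)
    (h : SegB tv 0 n0) :
    ∀ j r : ℕ, ((List.range nc).map fun j => tv j % 2 ^ 495)[j]? = some r → CenB1a r := by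
  intro j r hr
  rw [List.getElem?_map, Option.map_eq_some_iff] at hr
  obtain ⟨i, hi, rfl⟩ := hr
  obtain ⟨hj, he⟩ := List.getElem?_eq_some_iff.1 hi
  rw [List.getElem_range] at he
  subst he
  rw [List.length_range] at hj
  by_cases h1 : j < n0
  · exact h j (Nat.zero_le j) h1
  · exact cenB_of_card (Or.inr (hbig j (not_lt.1 h1) hj))

end Pool.Agent.Helper9.TY
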