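import Mathlib
import Pool.Agent.Helper9.TY.ChkE
import Pool.Agent.Helper79.CV.FReps
import Pool.Agent.Helper16.TY.RunFin

/-!
MP_8ee768_co, project TH-Y', stages E / B1a: the stages from the segments of centres, for helper16's
class table `Tab.tv` (24746 classes with `MM ≤ 6`, the first 466 with `MM ≤ 4`: 13 of excess 0, 26 of
excess 2, 427 of excess 4) and helper79's list `repsF`.

* `cenE_reps : SegE reps Tab.tv 466 24746 → ..` = the hypothesis `hE` of helper4's `no_cover`;
* `cenB_F : SegB Tab.tv 13 466 → ..` = the hypothesis `hB1a`.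
-/

set_option autoImplicit false
set_option maxRecDepth 100000
set_option exponentiation.threshold 2000000

namespace Pool.Agent.Helper9.TY

open Finset
open Pool.Agent.Helper97.CV
open Pool.Agent.Helper79.CV
open Pool.Agent.Helper33.CV
open Pool.Agent.Helper38.TY
open Pool.Agent.Helper91.TY hiding Acc
open Pool.Agent.Helper49.TY
open Pool.Agent.Helper16.TY (reps Tab.tv Tab.rp Tab.nc)

theorem reps_map : reps = (List.range 24746).map fun j => Tab.tv j % 2 ^ 495 := rfl

theorem small58 : smallChk Tab.tv 58 13 0 = true := by decide +kernel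

theorem small59 : smallChk Tab.tv 59 39 0 = true := by decide +kernel

theorem small60 : smallChk Tab.tv 60 466 0 = true := by decide +kernel

/-- **stage E**: the hypothesis of `no_cover` -/
theorem cenE_reps (h : SegE reps Tab.tv 466 24746) :
    ∀ j r : ℕ, reps[j]? = some r → CenE reps j r := by
  rw [reps_map] at h ⊢
  exact cenE_all small60 h

/-- the classes below `13`, `39` have excess 0, at most 2 -/
theorem cls_size {m j k : ℕ} (h : (m = 2 ∧ j = 13) ∨ (m = 4 ∧ j = 39)) {D : Finset (Finset (Fin 13))}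
    (hP : 114 + m ≤ 2 * D.card) (hk : Cls reps k D) : j ≤ k := by
  by_contra hlt
  obtain ⟨r, hr, σ, hσ⟩ := hk
  rw [reps_map, List.getElem?_map, Option.map_eq_some_iff] at hr
  obtain ⟨i, hi, rfl⟩ := hr
  obtain ⟨hj, he⟩ := List.getElem?_eq_some_iff.1 hi
  rw [List.getElem_range] at he
  subst he
  have h1 : D.card = (fam 12 4 (Tab.tv k % 2 ^ 495)).card := by
    rw [← hσ, card_mapF]
  rcases h with ⟨rfl, rfl⟩ | ⟨rfl, rfl⟩
  · have := smallChk_sound small58 k (Nat.zero_le k) (by omega)
    omega
  · have := smallChk_sound small59 k (Nat.zero_le k) (by omega)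
    omega

/-! ### the list of helper79 -/

/-- the number in the class table of the members of `repsF` -/
def permF : List ℕ :=
  [0, 1, 2, 3, 4, 5, 6, 7, 8, 9, 10, 11, 12, 13, 14, 15, 16, 17, 18, 19, 21, 22, 26, 27, 28,
   29, 30, 31, 32, 33, 34, 35, 38, 20, 23, 24, 25, 36, 37, 42, 53, 54, 58, 59, 60, 67, 77, 79,
   81, 95, 101, 104, 112, 113, 119, 120, 121, 122, 123, 124, 125, 126, 127, 128, 129, 130,
   131, 132, 133, 134, 135, 136, 137, 138, 139, 140, 141, 142, 143, 145, 146, 148, 149, 150,
   151, 152, 153, 154, 155, 156, 157, 158, 159, 160, 161, 162, 169, 172, 177, 184, 185, 186,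
   187, 188, 190, 199, 201, 202, 205, 208, 209, 210, 211, 212, 213, 214, 215, 216, 232, 233,
   234, 235, 236, 240, 251, 252, 253, 254, 255, 264, 265, 266, 267, 278, 281, 285, 286, 287,
   288, 289, 290, 291, 295, 297, 298, 299, 309, 331, 333, 335, 341, 344, 346, 347, 348, 357,
   361, 362, 363, 364, 365, 367, 372, 373, 375, 376, 379, 380, 381, 382, 383, 384, 385, 386,
   387, 388, 389, 390, 391, 392, 393, 394, 395, 396, 397, 398, 401, 402, 403, 404, 405, 408,
   409, 412, 429, 430, 431, 432, 433, 434, 435, 436, 439, 445, 455, 456, 457, 458, 459, 460,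
   461, 462, 39, 40, 41, 43, 44, 45, 46, 47, 48, 49, 50, 51, 52, 55, 56, 57, 61, 62, 63, 64,
   65, 66, 68, 69, 70, 71, 72, 73, 74, 75, 76, 78, 80, 82, 83, 84, 85, 86, 87, 88, 89, 90, 91,
   92, 93, 94, 96, 97, 98, 99, 100, 102, 103, 105, 106, 107, 108, 109, 110, 111, 114, 115,
   116, 117, 118, 144, 147, 163, 164, 165, 166, 167, 168, 170, 171, 173, 174, 175, 176, 178,
   179, 180, 181, 182, 183, 189, 191, 192, 193, 194, 195, 196, 197, 198, 200, 203, 204, 206,
   207, 217, 218, 219, 220, 221, 222, 223, 224, 225, 226, 227, 228, 229, 230, 231, 237, 238,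
   239, 241, 242, 243, 244, 245, 246, 247, 248, 249, 250, 256, 257, 258, 259, 260, 261, 262,
   263, 268, 269, 270, 271, 272, 273, 274, 275, 276, 277, 279, 280, 282, 283, 284, 292, 293,
   294, 296, 300, 301, 302, 303, 304, 305, 306, 307, 308, 310, 311, 312, 313, 314, 315, 316,
   317, 318, 319, 320, 321, 322, 323, 324, 325, 326, 327, 328, 329, 330, 332, 334, 336, 337,
   338, 339, 340, 342, 343, 345, 349, 350, 351, 352, 353, 354, 355, 356, 358, 359, 360, 366,
   368, 369, 370, 371, 374, 377, 378, 399, 400, 406, 407, 410, 411, 413, 414, 415, 416, 417,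
   418, 419, 420, 421, 422, 423, 424, 425, 426, 427, 428, 437, 438, 440, 441, 442, 443, 444,
   446, 447, 448, 449, 450, 451, 452, 453, 454, 463, 464, 465]

/-- the members of a list are the table values with the numbers of the second list, all below 466 -/
noncomputable def eqTV (l : List ℕ) : List ℕ → Bool :=
  @List.rec ℕ (fun _ => List ℕ → Bool) (fun _ => true)
    (fun r _ ih p => @List.rec ℕ (fun _ => Bool) false (fun j p' _ =>
      ite0 (Nat.ble (Nat.succ j) 466) false
        (ite0 (Nat.beq r (Nat.land (Tab.tv j) (Nat.sub (Nat.pow 2 495) 1))) false (ih p'))) p) l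

theorem eqTV_sound : ∀ {l p : List ℕ}, eqTV l p = true → ∀ r ∈ l,
    ∃ j < 466, r = Tab.tv j % 2 ^ 495
  | [], _, _, r, h => absurd h List.not_mem_nil
  | x :: l, [], h, r, hr => absurd h Bool.false_ne_true
  | x :: l, j :: p, h, r, hr => by
    have h0 : ite0 (Nat.ble (Nat.succ j) 466) false
        (ite0 (Nat.beq x (Nat.land (Tab.tv j) (Nat.sub (Nat.pow 2 495) 1))) false
          (eqTV l p)) = true := h
    obtain ⟨h1, h0⟩ := Pool.Agent.Helper91.TY.ite0_and h0
    obtain ⟨h2, h3⟩ := Pool.Agent.Helper91.TY.ite0_and h0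
    rcases List.mem_cons.1 hr with rfl | hr
    · exact ⟨j, Nat.le_of_ble_eq_true h1, by rw [← land_495]; exact Nat.eq_of_beq_eq_true h2⟩
    · exact eqTV_sound h3 r hr

theorem eqTV_F : eqTV repsF permF = true := by decide +kernel

/-- **stage B1a**: the hypothesis of `no_cover` -/
theorem cenB_F (h : SegB Tab.tv 13 466) :
    ∀ j r : ℕ, repsF[j]? = some r → CenB1a r := by
  intro j r hr
  obtain ⟨i, h2, h1⟩ := eqTV_sound eqTV_F r (List.mem_of_getElem? hr)
  subst h1
  by_cases h3 : i < 13
  · exact cenB_of_card (Or.inl (smallChk_sound small58 i (Nat.zero_le i) (by omega)))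
  · exact h i (not_lt.1 h3) h2

end Pool.Agent.Helper9.TY
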