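import Pool.Agent.Helper67.TY.Sols
import Pool.Agent.Helper67.TY.NearI
import Pool.Agent.Helper16.TY.Seg
import Pool.Agent.Helper79.CV.FReps

/-!
MP_8ee768_co, project TH-Y', stage F: completeness of the 466 classes from the labelled tables.

Every labelled entry over `REP(A)`, `REP(B)` gets a certificate `c + 2 ^ 66 * j` (`c` = 66 bits of
helper16's network, `j` = class number in the list `repsF`).
-/

set_option autoImplicit false
set_option maxRecDepth 100000
set_option exponentiation.threshold 3000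

namespace Pool.Agent.Helper9.TY

open Finset
open Pool.Agent.Helper89.CV (OddCover ofMask)
open Pool.Agent.Helper97.CV
open Pool.Agent.Helper79.CV
open Pool.Agent.Helper63.SIMD
open Pool.Agent.Helper82.TY (below)
open Pool.Agent.Helper67.TY
open Pool.Agent.Helper16.TY (eF chk chk_sound allLt lt_of_allLt packL fld_packL below_mapS)

/-- entry `j` of the packed list `X` of codes -/
def rpX (X j : ℕ) : ℕ := Nat.land (Nat.shiftRight X (Nat.mul 512 j)) (2 ^ 495 - 1)

theorem rpX_lt (X j : ℕ) : rpX X j < 2 ^ 495 := by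
  have e : rpX X j = (X >>> (512 * j)) &&& (2 ^ 495 - 1) := rfl
  rw [e, Nat.and_two_pow_sub_one_eq_mod]
  exact Nat.mod_lt _ (Nat.two_pow_pos _)

theorem rpX_eq {l : List ℕ} (hl : ∀ a ∈ l, a < 2 ^ 495) {j : ℕ} (hj : j < l.length) :
    rpX (packL 512 l) j = l[j] := by
  have e : rpX (packL 512 l) j = (packL 512 l >>> (512 * j)) &&& (2 ^ 495 - 1) := rfl
  have h1 := fld_packL (W := 512) (l := l) (fun a ha => lt_trans (hl a ha)
    (Nat.pow_lt_pow_right (by norm_num) (by norm_num))) hj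
  have h2 : (packL 512 l >>> (512 * j)) % 2 ^ 512 = l[j] := by
    rw [← h1, Nat.shiftRight_eq_div_pow]
    rfl
  rw [e, Nat.and_two_pow_sub_one_eq_mod,
    ← Nat.mod_mod_of_dvd _ (pow_dvd_pow 2 (show 495 ≤ 512 by norm_num)), h2,
    Nat.mod_eq_of_lt (hl _ (List.getElem_mem hj))]

/-- the check of a chunk of labelled entries: `N` entries `es` with link `T`, certificates `vs` -/
def chkV (X n T N : ℕ) (es vs : List ℕ) : Bool :=
  chk N (rpX X) (es.map fun e => Nat.add e (Nat.mul (2 ^ 330) T))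
    (vs.map fun v => Nat.land v (2 ^ 66 - 1)) (vs.map fun v => Nat.shiftRight v 66) &&
      allLt (Nat.mul n (2 ^ 66)) vs

/-- isomorphic to a member of the list -/
def InL (reps : List ℕ) (D : Finset (Finset (Fin 13))) : Prop :=
  ∃ σ : Equiv.Perm (Fin 13), σ 12 = 12 ∧ ∃ r ∈ reps, mapF σ D = fam 12 4 r

theorem chkV_sound {reps : List ℕ} (hl : ∀ a ∈ reps, a < 2 ^ 495) {T N : ℕ} {es vs : List ℕ}
    (h : chkV (packL 512 reps) reps.length T N es vs = true) : ∀ e ∈ es, InL reps (eF T e) := by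
  unfold chkV at h
  rw [Bool.and_eq_true] at h
  obtain ⟨h1, h2⟩ := h
  intro e he
  obtain ⟨σ, hσ, j, hj, h3⟩ := chk_sound (rpX_lt _) h1
    (Nat.add e (Nat.mul (2 ^ 330) T)) (List.mem_map.2 ⟨e, he, rfl⟩)
  have e1 : fam 12 4 (Nat.add e (Nat.mul (2 ^ 330) T)) = eF T e := rfl
  rw [e1] at h3
  rw [List.mem_map] at hj
  obtain ⟨v, hv, rfl⟩ := hj
  have h4 := lt_of_allLt h2 v hv
  have h5 : Nat.shiftRight v 66 < reps.length := by
    have e2 : Nat.shiftRight v 66 = v >>> 66 := rfl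
    have e3 : Nat.mul reps.length (2 ^ 66) = reps.length * 2 ^ 66 := rfl
    rw [e2, Nat.shiftRight_eq_div_pow]
    rw [e3] at h4
    exact Nat.div_lt_of_lt_mul (by rw [Nat.mul_comm]; exact h4)
  rw [rpX_eq hl h5] at h3
  refine ⟨σ, hσ, _, List.getElem_mem h5, ?_⟩
  rw [← h3, fam_enc (by norm_num)]
  exact sub_map (fun s hs => sub_of_mem_fam (by norm_num) hs) hσ

/-- **completeness of the classes from the two labelled tables** -/
theorem clsOK_of_lab {cap : ℕ} (hcap : cap ≤ 6) {reps : List ℕ}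
    (hA : ∀ D : Finset (Finset (Fin 13)), OddFam 3 (below 12) D → link D 11 = fam 11 3 repA →
      2 * D.card ≤ 114 + cap → InL reps D)
    (hB : ∀ D : Finset (Finset (Fin 13)), OddFam 3 (below 12) D → link D 11 = fam 11 3 repB →
      2 * D.card ≤ 114 + cap → InL reps D) : ClsOK cap reps := by
  intro D hD hc
  obtain ⟨σ, hσ, h⟩ := exists_near nearOK hD (by omega)
  have hD2 : OddFam 3 (below 12) (mapF σ D) := by
    have h1 := hD.map σ
    rw [below_mapS hσ] at h1
    exact h1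
  have hc2 : 2 * (mapF σ D).card ≤ 114 + cap := by
    rw [card_mapF]
    exact hc
  have key : InL reps (mapF σ D) := by
    rcases h with h | h
    · exact hA _ hD2 h hc2
    · exact hB _ hD2 h hc2
  obtain ⟨τ, -, r, hr, h3⟩ := key
  obtain ⟨j, hj⟩ := List.mem_iff_getElem?.1 hr
  exact ⟨j, r, hj, τ * σ, by rw [mapF_mul, h3]⟩

theorem inL_of_lab {reps : List ℕ} {T cap : ℕ} {E : List (List ℕ)}
    (hE : ∀ es ∈ E, ∀ e ∈ es, InL reps (eF T e))
    (lab : ∀ D : Finset (Finset (Fin 13)), OddFam 3 (below 12) D → link D 11 = fam 11 3 T →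
      2 * D.card ≤ 114 + cap → ∃ es ∈ E, ∃ e ∈ es, D = eF T e)
    (D : Finset (Finset (Fin 13))) (h1 : OddFam 3 (below 12) D) (h2 : link D 11 = fam 11 3 T)
    (h3 : 2 * D.card ≤ 114 + cap) : InL reps D := by
  obtain ⟨es, hes, e, he, rfl⟩ := lab D h1 h2 h3
  exact hE es hes e he

theorem repsF_lt' : ∀ a ∈ repsF, a < 2 ^ 495 := by
  intro a ha
  obtain ⟨j, hj⟩ := List.mem_iff_getElem?.1 ha
  exact repsF_lt hj

end Pool.Agent.Helper9.TY
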