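import Pool.Agent.Helper60.TY.InstE
import Pool.Agent.Helper82.TY.RowsX

/-!
MP_8ee768_co, project TH-Y', stages E / B1a: the hypothesis `HypE` on the tables from the class theorem, and
the hypothesis `hE` of `Helper4.CV.main_of` from the collected segments.
-/

set_option autoImplicit false
set_option maxRecDepth 100000

namespace Pool.Agent.Helper9.TY

open Pool.Agent.Helper97.CV
open Pool.Agent.Helper79.CV
open Pool.Agent.Helper33.CV
open Pool.Agent.Helper49.TY
open Pool.Agent.Helper7.TB (typ)
open Pool.Agent.Helper7.TY (FlagL IsoL)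
open Pool.Agent.Helper82.TY (lanesL rowsC_of_flags)
open Pool.Agent.Helper16.TY (reps Tab.tv)
open Pool.Agent.Helper25.EN (CountA CountB)
open Pool.Agent.Helper60.TY (HypE SE)

theorem reps_len : reps.length ≤ 32768 := by
  rw [reps_map, List.length_map, List.length_range]
  norm_num

/-- the hypotheses on the tables -/
theorem hypE_of (hR : RootOK 6 (fun _ => True) reps) (hF : FlagL reps 5074 typ lanesL)
    (hI : IsoL 5074 typ lanesL) (hA : CountA) (hB : CountB) : HypE :=
  ⟨rowsC_of_flags (le_refl 6) reps_len hR hF hI, hA, hB⟩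

/-- the hypothesis `hE` of `main_of` -/
theorem hE_of (hR : RootOK 6 (fun _ => True) reps) (hF : FlagL reps 5074 typ lanesL)
    (hI : IsoL 5074 typ lanesL) (hA : CountA) (hB : CountB) (h : SE 466 24746) :
    SegE reps Tab.tv 466 24746 := h (hypE_of hR hF hI hA hB)

end Pool.Agent.Helper9.TY
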