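import Mathlib
import Pool.Agent.Helper9.TY.FinE
import Pool.Agent.Helper7.TB.Cls
import Pool.Agent.Helper7.TB.Typ
import Pool.Agent.Helper52.TB.RowX
import Pool.Agent.Helper52.TY.RootA
import Pool.Agent.Helper60.TB.L2
import Pool.Agent.Helper60.TB.R4A
import Pool.Agent.Helper60.TB.R4B
import Pool.Agent.Helper60.TB.F4A
import Pool.Agent.Helper60.TB.F4B

/-!
MP_8ee768_co, project TH-Y', stages E / B1a: the row functions and root words of the instance.
-/

set_option autoImplicit false
set_option maxRecDepth 100000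
set_option exponentiation.threshold 2000000

namespace Pool.Agent.Helper9.TY

open Finset
open Pool.Agent.Helper89.CV (OddCover ofMask)
open Pool.Agent.Helper97.CV
open Pool.Agent.Helper79.CV
open Pool.Agent.Helper33.CV
open Pool.Agent.Helper38.TY
open Pool.Agent.Helper91.TY hiding Acc
open Pool.Agent.Helper49.TY
open Pool.Agent.Helper82.TY (below popR)
open Pool.Agent.Helper16.TY (reps Tab.tv Tab.rp Tab.nc Good)
open Pool.Agent.Helper7.TB (typ nl clr)
open Pool.Agent.Helper52.TB (rowX)
open Pool.Agent.Helper52.TY (LayC rootR rootR_eq)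
open Pool.Agent.Helper60.TB

/-! ### the rows of the point `y` -/

/-- lanes of the types with 21 blocks, from the class `j` on -/
noncomputable def rowyE (j t : ℕ) : List ℕ :=
  @Bool.rec (fun _ => List ℕ) (rowJ clr nl rowX j t) [] (Nat.ble 983 t)

/-- their number -/
noncomputable def nlyE (j t : ℕ) : ℕ :=
  @Bool.rec (fun _ => ℕ) (nlJ clr nl j t) 0 (Nat.ble 983 t)

/-- the types `a, .., a + n - 1` have not 21 blocks -/
noncomputable def ne21 (n : ℕ) : ℕ → Bool :=
  @Nat.rec (fun _ => ℕ → Bool) (fun _ => true)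
    (fun _ ih a => ite0 (Nat.beq (popR (typ a)) 21) (frS a (Nat.succ a) fun a' => ih a') false) n

theorem card_typ {c : ℕ} (h : c < 2 ^ 165) : (fam 11 3 c).card = popR c :=
  Pool.Agent.Helper47.TY.card_fam_eq (by norm_num) (by
    have e : (11 : ℕ).choose 3 = 165 := by decide
    rw [e]
    exact h) (by decide)

theorem ne21_sound : ∀ {n a : ℕ}, ne21 n a = true → ∀ t, a ≤ t → t < a + n →
    (fam 11 3 (typ t)).card ≠ 21
  | 0, a, _, t, h1, h2 => by omega
  | n + 1, a, h, t, h1, h2 => by
    have h0 : ite0 (Nat.beq (popR (typ a)) 21) (frS a (Nat.succ a) fun a' => ne21 n a') false =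
      true := h
    cases hb : Nat.beq (popR (typ a)) 21 with
    | true =>
      rw [hb, ite0_true] at h0
      exact absurd h0 Bool.false_ne_true
    | false =>
      rw [hb, ite0_false, frS_eq] at h0
      by_cases h5 : t = a
      · rw [h5, card_typ (Pool.Agent.Helper7.TB.typ_lt a)]
        intro h6
        rw [h6] at hb
        exact absurd hb (by decide)
      · exact ne21_sound h0 t (by
          show a + 1 ≤ t
          omega) (by
          show t < a + 1 + n
          omega)

theorem ne21_a : ne21 1024 983 = true := by decide +kernel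
theorem ne21_b : ne21 1024 2007 = true := by decide +kernel
theorem ne21_c : ne21 1024 3031 = true := by decide +kernel
theorem ne21_d : ne21 1019 4055 = true := by decide +kernel

theorem cut983 : ∀ t, 983 ≤ t → t < 5074 → (fam 11 3 (typ t)).card ≠ 21 := by
  intro t h1 h2
  by_cases h3 : t < 2007
  · exact ne21_sound ne21_a t h1 (by omega)
  · by_cases h4 : t < 3031
    · exact ne21_sound ne21_b t (by omega) (by omega)
    · by_cases h5 : t < 4055
      · exact ne21_sound ne21_c t (by omega) (by omega)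
      · exact ne21_sound ne21_d t (by omega) (by omega)

theorem rowsE_of (h : RowsC reps typ nl clr rowX 5074 6) {j : ℕ} (hj : j ≤ 32768) :
    Rows21 typ (nlyE j) (rowyE j) 5074 6 (fun D => ∀ i < j, ¬ Cls reps i D) :=
  Rows21.cut (h.suffix hj fun D k hP hk => low_le D k hP hk) cut983

/-- the first class of excess `m` -/
def j0B (m : ℕ) : ℕ := @Bool.rec (fun _ => ℕ) 39 13 (Nat.beq m 2)

theorem rowsB_of (h : RowsC reps typ nl clr rowX 5074 6) (m : ℕ) (hm : m = 2 ∨ m = 4) :
    Rows21 typ (nlyE (j0B m)) (rowyE (j0B m)) 5074 6 (fun D => 114 + m ≤ 2 * D.card) := by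
  refine Rows21.cut (h.suffix ?_ fun D k hP hk => cls_size ?_ hP hk) cut983
  · rcases hm with rfl | rfl
    · show 13 ≤ 32768
      norm_num
    · show 39 ≤ 32768
      norm_num
  · rcases hm with rfl | rfl
    · exact Or.inl ⟨rfl, rfl⟩
    · exact Or.inr ⟨rfl, rfl⟩

/-! ### the rows of the point `x` -/

/-- the two types with 19 blocks -/
noncomputable def typxE (t : ℕ) : ℕ :=
  @Nat.rec (fun _ => ℕ) Pool.Agent.Helper67.TY.repA (fun _ _ => Pool.Agent.Helper67.TY.repB) t

/-- value for `t = 0`, value for `t ≥ 1` -/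
def sel2 {α : Type} (a b : α) (t : ℕ) : α := @Nat.rec (fun _ => α) a (fun _ _ => b) t

/-- rows of stage E -/
noncomputable def rowxE (t : ℕ) : List ℕ := @Nat.rec (fun _ => List ℕ) lx2A (fun _ _ => lx2B) t

/-- their number -/
noncomputable def nlxE (t : ℕ) : ℕ := @Nat.rec (fun _ => ℕ) lx2An (fun _ _ => lx2Bn) t

/-- concatenation -/
def appK (l l' : List ℕ) : List ℕ :=
  @List.rec ℕ (fun _ => List ℕ) l' (fun x _ ih => x :: ih) l

theorem appK_eq (l l' : List ℕ) : appK l l' = l ++ l' := by
  induction l with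
  | nil => rfl
  | cons x l ih =>
    show x :: appK l l' = x :: (l ++ l')
    rw [ih]

/-- rows of stage B1a of kind `k`: 0 = excess at most 2, 1 = reduced of excess 4 too, 2 = all of
excess 4 too -/
noncomputable def rowxB (k t : ℕ) : List ℕ :=
  @Nat.rec (fun _ => List ℕ) (rowxE t)
    (fun k' _ => @Nat.rec (fun _ => List ℕ)
      (appK (rowxE t) (@Nat.rec (fun _ => List ℕ) x4rA (fun _ _ => x4rB) t))
      (fun _ _ => appK (rowxE t) (@Nat.rec (fun _ => List ℕ) x4fA (fun _ _ => x4fB) t)) k') k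

/-- their numbers -/
noncomputable def nlxB (k t : ℕ) : ℕ :=
  @Nat.rec (fun _ => ℕ) (nlxE t)
    (fun k' _ => @Nat.rec (fun _ => ℕ)
      (Nat.add (@Nat.rec (fun _ => ℕ) 192 (fun _ _ => 256) t)
        (@Nat.rec (fun _ => ℕ) x4rAn (fun _ _ => x4rBn) t))
      (fun _ _ => Nat.add (@Nat.rec (fun _ => ℕ) 192 (fun _ _ => 256) t)
        (@Nat.rec (fun _ => ℕ) x4fAn (fun _ _ => x4fBn) t)) k') k

/-! ### the root word -/

/-- the root word from the value and its cube -/
noncomputable def rootW (v R : ℕ) : ℕ :=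
  Nat.lor R (Nat.lor (Pool.Agent.Helper52.TY.pts 12 (Nat.xor 4095 (Nat.shiftRight v 495)))
    (Pool.Agent.Helper52.TY.digR (Pool.Agent.Helper52.TY.popK
      (Nat.mod v Pool.Agent.Helper52.TY.c495))))

theorem rootW_eq {v : ℕ} (hv : Good 6 v) (ho : Occ (v % 2 ^ 495)) :
    rootW v (cub 12 (fam 12 4 (v % 2 ^ 495))) = cub 12 (LayC (fam 12 4 (v % 2 ^ 495))) := by
  obtain ⟨B, hB, hr⟩ := ho
  rw [← rootR_eq hv hB hr]
  unfold rootW rootR
  have e1 : Nat.mod v Pool.Agent.Helper52.TY.c495 = v % 2 ^ 495 := by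
    show v % Pool.Agent.Helper52.TY.c495 = _
    rw [Pool.Agent.Helper52.TY.c495_eq]
  rw [e1, cub4_eq (Nat.mod_lt _ (Nat.two_pow_pos 495))]

end Pool.Agent.Helper9.TY
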