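import Pool.Agent.Helper60.TY.InstE

/-!
MP_8ee768_co, project TH-Y', stage B1a: the names of the checks used by the printed modules and the collecting
theorems (the same form as `Helper60/TY/InstE.lean`).

* `oneBc j m w C Z S`: the centre `j` of excess `m` (2 for `13 ≤ j < 39`, 4 for `39 ≤ j < 466`), `w = 0` or the
  mask of a 5-set which shows that the centre is not reduced; `onePBc j m w mC mZ C Z S`: a part of it;
* `SB a b`: if the tables are right (`HypE`), the centres `a ≤ j < b` are done.
* `sj a b`: a stream with the low 8000 bits `a`.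
-/

set_option autoImplicit false
set_option maxRecDepth 100000
set_option exponentiation.threshold 2000000

namespace Pool.Agent.Helper9.TY

open Pool.Agent.Helper97.CV
open Pool.Agent.Helper91.TY hiding Acc
open Pool.Agent.Helper49.TY
open Pool.Agent.Helper16.TY (reps Tab.tv Good)
open Pool.Agent.Helper16.TY.Tab (tv_good)
open Pool.Agent.Helper7.TB (typ nl clr)
open Pool.Agent.Helper52.TB (rowX)
open Pool.Agent.Helper52.TY (LayC)
open Pool.Agent.Helper82.TY (typz rowz nlz rowsZ_zero rowsZ_one rowsZ_two)
open Pool.Agent.Helper60.TY (HypE)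

/-- the stream with the low 8000 bits (2000 hexadecimal digits) `a` and the rest `b` -/
def sj (a b : ℕ) : ℕ := Nat.lor a (Nat.shiftLeft b 8000)

/-- the check of the centre `j` -/
noncomputable def oneBc (j m w C Z S : ℕ) : Bool :=
  oneB Tab.tv typ 5074 rowyE nlyE j0B typz rowz nlz rootW cbB j m w C Z S

/-- the check of a part of the centre `j` -/
noncomputable def onePBc (j m w mC mZ C Z S : ℕ) : Bool :=
  onePB Tab.tv typ 5074 rowyE nlyE j0B typz rowz nlz rootW cbB j m w mC mZ C Z S

/-- the laws of the instance -/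
theorem lawB (h : HypE) :
    LawB Tab.tv typ 5074 rowyE nlyE j0B typz rowz nlz rootW cbB LayC where
  good := tv_good
  rows := rowsB_of h.rows
  rows0 := rowsZ_zero h.a h.b
  rows1 := rowsZ_one h.a h.b
  rows2 := rowsZ_two h.a h.b
  root := fun _ hv ho => rootW_eq hv ho
  cb := fun _ _ _ _ hyx hy hx => cbB_law _ hyx hy hx _

/-- the centres `a ≤ j < b` are done -/
def SB (a b : ℕ) : Prop := HypE → SegB Tab.tv a b

/-- `m` is 2 or 4 -/
def m24 (m : ℕ) : Bool := @Bool.rec (fun _ => Bool) (Nat.beq m 4) true (Nat.beq m 2)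

theorem m24_sound {m : ℕ} (h : m24 m = true) : m = 2 ∨ m = 4 := by
  unfold m24 at h
  cases hb : Nat.beq m 2 with
  | true => exact Or.inl (Nat.eq_of_beq_eq_true hb)
  | false =>
    rw [hb] at h
    exact Or.inr (Nat.eq_of_beq_eq_true h)

/-- one centre; `k` is the next number -/
theorem SB.one {j m w C Z S : ℕ} (k : ℕ) (h : oneBc j m w C Z S = true)
    (hj : (Nat.beq (Nat.succ j) k && m24 m) = true) : SB j k := by
  intro H
  obtain ⟨h1, h2⟩ := Bool.and_eq_true_iff.1 hj
  obtain rfl : Nat.succ j = k := Nat.eq_of_beq_eq_true h1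
  exact SegB.one (oneB_sound (lawB H) (m24_sound h2) h)

theorem SB.app {a b c : ℕ} (h : SB a b) (h' : SB b c) : SB a c := fun H => (h H).app (h' H)

/-- one centre in front of a segment -/
theorem SB.cons {j m w C Z S k b : ℕ} (h : oneBc j m w C Z S = true)
    (hj : (Nat.beq (Nat.succ j) k && m24 m) = true) (h' : SB k b) : SB j b :=
  (SB.one k h hj).app h'

/-- the parts of the centre `j` with the masks of `ps` are dead -/
def APB (j : ℕ) (ps : List (ℕ × ℕ)) : Prop :=
  HypE → AllP (PDB (Tab.tv j % 2 ^ 495)) ps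

theorem APB.nil (j : ℕ) : APB j [] := fun _ => trivial

theorem APB.cons {j m w mC mZ C Z S : ℕ} {ps : List (ℕ × ℕ)}
    (h : onePBc j m w mC mZ C Z S = true) (hm : m24 m = true) (h' : APB j ps) :
    APB j ((mC, mZ) :: ps) := fun H =>
  ⟨onePB_sound (lawB H) (m24_sound hm) h, h' H⟩

/-- one centre from its parts -/
theorem SB.parts {j : ℕ} {ps : List (ℕ × ℕ)} (k : ℕ) (hc : covJ Tab.tv j ps = true)
    (hj : Nat.beq (Nat.succ j) k = true) (h : APB j ps) : SB j k := by
  intro H
  obtain rfl : Nat.succ j = k := Nat.eq_of_beq_eq_true hj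
  exact segB_of_parts (tv_good j) hc (h H)

/-- the conclusion of the stage in the form of `Helper4.CV.main_of` -/
theorem hB1a_of (h : SB 13 466) (H : HypE) : SegB Tab.tv 13 466 := h H

end Pool.Agent.Helper9.TY
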